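import Mathlib
import Pool.Agent.RU.Defs
import Pool.Agent.SPT.Stmt

/-!
# FB: closed 4-braids with long syllables
-/

set_option autoImplicit false

namespace Pool.Agent.FB

open LaurentPolynomial Pool.RU

/-! ### the analytic side

A block `(x, y, z)`: the weights of `σ₁^a`, `σ₃^c` (`1` if the syllable is absent) and of `σ₂^b`. -/

/-- the block `σ₂^b σ₁^a σ₃^c` with different colours at the two hubs -/
noncomputable def T3 (Q : ℝ) (t : ℂ × ℂ × ℂ) : Matrix (Fin 3) (Fin 3) ℂ :=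
  (1 + ((t.2.2 - 1) / Q) • !![1, 1, (Q : ℂ) - 2; 1, 1, (Q : ℂ) - 2; 1, 1, (Q : ℂ) - 2]) *
    Matrix.diagonal ![t.1, t.2.1, 1]

/-- the block `σ₂^b σ₁^a σ₃^c` with the same colour at the two hubs -/
noncomputable def T2 (Q : ℝ) (t : ℂ × ℂ × ℂ) : Matrix (Fin 2) (Fin 2) ℂ :=
  (1 + ((t.2.2 - 1) / Q) • !![1, (Q : ℂ) - 1; 1, (Q : ℂ) - 1]) *
    Matrix.diagonal ![t.1 * t.2.1, 1]

/-- the bracket of the closed braid times `√Q`, up to a unit -/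
noncomputable def EE (Q : ℝ) (L : List (ℂ × ℂ × ℂ)) : ℂ :=
  ((Q : ℂ) ^ 2 - 3 * Q + 1) - (1 - (Q : ℂ)) * (L.map (T3 Q)).prod.trace +
    (L.map (T2 Q)).prod.trace

/-- all blocks of the list are without `σ₃` (`i = true`), or all are without `σ₁` -/
def Only (i : Bool) (L : List (ℂ × ℂ × ℂ)) : Prop :=
  L ≠ [] ∧ ∀ t ∈ L, (if i then t.2.1 else t.1) = 1

/-- the weights are on the unit circle and at distance at least `η` from `1`, if present; and if the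
closed braid is cut into a word without `σ₃` and a word without `σ₁`, then the product of the weights of
the two syllables of `σ₂` where these words meet is at distance at least `η` from `1` -/
def FarList (η : ℝ) (L : List (ℂ × ℂ × ℂ)) : Prop :=
  (∀ t ∈ L, ‖t.1‖ = 1 ∧ ‖t.2.1‖ = 1 ∧ ‖t.2.2‖ = 1 ∧ (t.1 = 1 ∨ η ≤ ‖t.1 - 1‖) ∧
    (t.2.1 = 1 ∨ η ≤ ‖t.2.1 - 1‖) ∧ ¬ (t.1 = 1 ∧ t.2.1 = 1) ∧ η ≤ ‖t.2.2 - 1‖) ∧
  ¬ Only true L ∧ ¬ Only false L ∧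
  ∀ s t P R, L ~r s :: P ++ t :: R → Only true (s :: P) → Only false (t :: R) →
    η ≤ ‖s.2.2 * t.2.2 - 1‖

/-- **Module U4** (analytic) -/
def St_U4 : Prop :=
  ∀ η B : ℝ, 0 < η → ∃ Q₀ : ℝ, 0 < Q₀ ∧ ∀ Q : ℝ, 0 < Q → Q < Q₀ → ∀ L : List (ℂ × ℂ × ℂ), L ≠ [] →
    FarList η L → B < ‖EE Q L‖

/-! ### the closed braids -/

/-- the closure of the trivial braid on four strands -/
def trivialClosure : Diagram 3 0 where
  kind := Fin.elim0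
  arc := fun p => match p with
    | (.inl g, b) => (.inl g, !b)
    | (.inr (x, i), b) => (.inr (x, i), !b)
  arc_arc := by
    rintro ⟨g | ⟨x, i⟩, b⟩ <;> simp
  arc_ne := by
    rintro ⟨g | ⟨x, i⟩, b⟩ <;> simp

/-- the syllable `σ_(i+1)^a` -/
def syllable (i : Fin 3) (a : ℤ) : List (Fin 3 × ℤˣ) :=
  List.replicate a.natAbs (i, if 0 ≤ a then 1 else -1)

/-- the word `σ₂^b σ₁^a σ₃^c ⋯` of a list of triples `(a, c, b)` -/
def word (β : List (ℤ × ℤ × ℤ)) : List (Fin 3 × ℤˣ) :=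
  (β.map fun t => syllable 1 t.2.2 ++ (syllable 0 t.1 ++ syllable 2 t.2.1)).flatten

/-- the closed braid -/
def closure (β : List (ℤ × ℤ × ℤ)) : Diagram 3 (0 + (word β).length) :=
  trivialClosure.insert (word β)

/-- the weights of the syllables -/
noncomputable def weights (θ : ℝ) (t : ℤ × ℤ × ℤ) : ℂ × ℂ × ℂ :=
  (Complex.exp (((-θ * t.1 : ℝ) : ℂ) * Complex.I),
    Complex.exp (((-θ * t.2.1 : ℝ) : ℂ) * Complex.I),
    Complex.exp (((-θ * t.2.2 : ℝ) : ℂ) * Complex.I))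

/-- the value of a Laurent polynomial at `exp (i (π + θ) / 4)` -/
noncomputable def valueAt (θ : ℝ) (f : ℤ[T;T⁻¹]) : ℂ :=
  LaurentPolynomial.eval₂ (Int.castRingHom ℂ)
    (Units.mk0 (SPT.Aθ θ) (Complex.exp_ne_zero _)) f

/-- **Module TOP** (topological) -/
def St_Top : Prop :=
  ∀ (β : List (ℤ × ℤ × ℤ)) (θ : ℝ), 0 < θ → θ < 1 →
    ∀ o : Tip 3 (0 + (word β).length) → Bool, (closure β).IsOrientation o →
    2 * Real.sin (θ / 2) * ‖valueAt θ ((closure β).normalized o)‖ =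
      ‖EE ((2 * Real.sin (θ / 2)) ^ 2) (β.map (weights θ))‖

/-! ### the theorem -/

/-- `β = σ₂^b₁ σ₁^a₁ σ₃^c₁ ⋯ σ₂^b_m σ₁^a_m σ₃^c_m` with `|b_i|` between `M` and `N`, and `|a_i|`, `|c_i|`
between `M` and `N` or zero, not both zero; `σ₁` and `σ₃` occur; and if the closed word is `X Y` with `X`
a word in `σ₁, σ₂` and `Y` a word in `σ₂, σ₃`, then the exponents of the first syllables `σ₂^b` of `X` and
`σ₂^b'` of `Y` satisfy `M ≤ |b + b'|`. -/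
def Long (M N : ℤ) (β : List (ℤ × ℤ × ℤ)) : Prop :=
  (∀ t ∈ β, (M ≤ |t.2.2| ∧ |t.2.2| ≤ N) ∧ (t.1 = 0 ∨ M ≤ |t.1| ∧ |t.1| ≤ N) ∧
    (t.2.1 = 0 ∨ M ≤ |t.2.1| ∧ |t.2.1| ≤ N) ∧ ¬ (t.1 = 0 ∧ t.2.1 = 0)) ∧
  (∃ t ∈ β, t.1 ≠ 0) ∧ (∃ t ∈ β, t.2.1 ≠ 0) ∧
  ∀ s t P R, β ~r s :: P ++ t :: R → (∀ u ∈ s :: P, u.2.1 = 0) → (∀ u ∈ t :: R, u.1 = 0) →
    M ≤ |s.2.2 + t.2.2|

/-- **closed 4-braids**: a bounded number of syllables of arbitrary lengths `≥ N`; any number of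
syllables of comparable lengths -/
def St_FourBraids : Prop :=
  ∀ B : ℕ,
    (∀ k : ℕ, ∃ N : ℕ, ∀ (M : ℕ) (β : List (ℤ × ℤ × ℤ)), β.length ≤ k → Long N M β →
      ∀ o, (closure β).IsOrientation o → (B : ℤ) < SPT.coeffSum ((closure β).normalized o)) ∧
    ∀ C : ℕ, ∃ N₀ : ℕ, ∀ N : ℕ, N₀ ≤ N → ∀ β : List (ℤ × ℤ × ℤ), Long N (C * N) β →
      ∀ o, (closure β).IsOrientation o → (B : ℤ) < SPT.coeffSum ((closure β).normalized o)

end Pool.Agent.FB
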