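import Mathlib
import Pool.Agent.FB.Defs
import Pool.Agent.RU.PgTL
import Pool.Agent.RU.PgTurn
import Pool.Agent.RU.Knot

/-!
# FB, module TOP: the bracket of a closed 4-braid as a sum of two traces
-/

set_option autoImplicit false

namespace Pool.Agent.FB

open LaurentPolynomial Pool.RU Matrix

/-! ### functions on words in three letters -/

/-- A function on words in `e₀, e₁, e₂` which obeys the rules of the traces on the Temperley-Lieb
algebra is determined by its values at eight words. -/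
theorem TOP_red (δ : ℂ) (D : List (Fin 3) → ℂ)
    (h1 : ∀ i y, D (i :: i :: y) = δ * D (i :: y))
    (h2 : ∀ (i j : Fin 3) (y : List (Fin 3)), (i.val + 1 = j.val ∨ j.val + 1 = i.val) →
      D (i :: j :: i :: y) = D (i :: y))
    (h3 : ∀ y, D (0 :: 2 :: y) = D (2 :: 0 :: y))
    (h4 : ∀ a y, D (a :: y) = D (y ++ [a]))
    (b0 : D [] = 0) (b1 : ∀ i, D [i] = 0) (b2 : D [0, 2] = 0) (b3 : D [1, 0] = 0)
    (b4 : D [1, 2] = 0) (b5 : D [1, 0, 2] = 0) : ∀ u, D u = 0 := by
  have rot : ∀ x y : List (Fin 3), D (x ++ y) = D (y ++ x) := by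
    intro x
    induction x with
    | nil => intro y; simp
    | cons a x ih =>
      intro y
      rw [List.cons_append, h4, List.append_assoc, ih, List.append_assoc, List.singleton_append]
  have g1 : ∀ x i y, D (x ++ i :: i :: y) = δ * D (x ++ i :: y) := by
    intro x i y
    rw [rot x, List.cons_append, List.cons_append, h1, ← List.cons_append, rot x]
  have g2 : ∀ (x : List (Fin 3)) (i j : Fin 3) (y : List (Fin 3)),
      (i.val + 1 = j.val ∨ j.val + 1 = i.val) → D (x ++ i :: j :: i :: y) = D (x ++ i :: y) := by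
    intro x i j y hij
    rw [rot x, List.cons_append, List.cons_append, List.cons_append, h2 i j _ hij,
      ← List.cons_append, rot x]
  have g3 : ∀ x y, D (x ++ 0 :: 2 :: y) = D (x ++ 2 :: 0 :: y) := by
    intro x y
    rw [rot x, List.cons_append, List.cons_append, h3, ← List.cons_append, ← List.cons_append,
      rot x]
  have a3 : ∀ a : Fin 3, a = 0 ∨ a = 1 ∨ a = 2 := by decide
  have a0 : ∀ a : Fin 3, a ≠ 1 → (1 : Fin 3).val + 1 = a.val ∨ a.val + 1 = (1 : Fin 3).val := by
    decide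
  have a1 : ∀ a b : Fin 3, a ≠ 1 → b ≠ 1 → a ≠ b → (a = 0 ∧ b = 2) ∨ (a = 2 ∧ b = 0) := by
    decide
  have a2 : ∀ a b c : Fin 3, a ≠ 1 → b ≠ 1 → c ≠ 1 → a ≠ b → c ≠ b → c = a := by
    decide
  have g4 : ∀ (x : List (Fin 3)) (a b : Fin 3) (y : List (Fin 3)), a ≠ 1 → b ≠ 1 → a ≠ b →
      D (x ++ a :: b :: y) = D (x ++ b :: a :: y) := by
    intro x a b y ha hb hab
    rcases a1 a b ha hb hab with ⟨rfl, rfl⟩ | ⟨rfl, rfl⟩
    · exact g3 x y
    · exact (g3 x y).symm
  have key : ∀ n : ℕ, ∀ u : List (Fin 3), u.length < n → D u = 0 := by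
    intro n
    induction n with
    | zero => exact fun u hu => absurd hu (Nat.not_lt_zero _)
    | succ n ih =>
      intro u hu
      by_cases hm : (1 : Fin 3) ∈ u
      · -- a word with a letter 1
        obtain ⟨x, y, rfl⟩ := List.append_of_mem hm
        rw [rot, List.cons_append]
        have hv : (y ++ x).length < n := by
          simp only [List.length_append, List.length_cons] at hu ⊢
          omega
        generalize y ++ x = v at hv
        match v, hv with
        | [], _ => exact b1 1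
        | [a], hv =>
          rcases a3 a with rfl | rfl | rfl
          · exact b3
          · rw [h1, b1, mul_zero]
          · exact b4
        | a :: b :: r, hv =>
          simp only [List.length_cons] at hv
          by_cases ha : a = 1
          · subst ha
            rw [h1, ih _ (by simp only [List.length_cons]; omega), mul_zero]
          by_cases hb : b = 1
          · subst hb
            rw [h2 1 a _ (a0 a ha), ih _ (by simp only [List.length_cons]; omega)]
          by_cases hab : a = b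
          · subst hab
            have e := g1 [1] a r
            simp only [List.singleton_append] at e
            rw [e, ih _ (by simp only [List.length_cons]; omega), mul_zero]
          match r, hv with
          | [], _ =>
            rcases a1 a b ha hb hab with ⟨rfl, rfl⟩ | ⟨rfl, rfl⟩
            · exact b5
            · have e := g4 [1] 2 0 [] ha hb hab
              simp only [List.singleton_append] at e
              rw [e, b5]
          | c :: r, hv =>
            simp only [List.length_cons] at hv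
            by_cases hc : c = 1
            · subst hc
              match r, hv with
              | [], hv =>
                simp only [List.length_nil] at hv
                have e := h4 1 [1, a, b]
                simp only [List.cons_append, List.nil_append] at e
                rw [← e, h1, ih _ (by simp only [List.length_cons, List.length_nil]; omega), mul_zero]
              | d :: r, hv =>
                simp only [List.length_cons] at hv
                by_cases hd : d = 1
                · subst hd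
                  have e := g1 [1, a, b] 1 r
                  simp only [List.cons_append, List.nil_append] at e
                  rw [e, ih _ (by simp only [List.length_cons]; omega), mul_zero]
                match r, hv with
                | [], hv =>
                  simp only [List.length_nil] at hv
                  have e := rot [1, a, b] [1, d]
                  simp only [List.cons_append, List.nil_append] at e
                  rw [e, h2 1 d _ (a0 d hd),
                    ih _ (by simp only [List.length_cons, List.length_nil]; omega)]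
                | e :: r, hv =>
                  simp only [List.length_cons] at hv
                  by_cases he : e = 1
                  · subst he
                    have e := g2 [1, a, b] 1 d r (a0 d hd)
                    simp only [List.cons_append, List.nil_append] at e
                    rw [e, ih _ (by simp only [List.length_cons]; omega)]
                  by_cases hde : d = e
                  · subst hde
                    have e := g1 [1, a, b, 1] d r
                    simp only [List.cons_append, List.nil_append] at e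
                    rw [e, ih _ (by simp only [List.length_cons]; omega), mul_zero]
                  -- now `1 a b 1 d e r` with `{a, b} = {d, e} = {0, 2}`
                  have e1 : D (1 :: a :: b :: 1 :: d :: e :: r) =
                      D (1 :: 0 :: 2 :: 1 :: d :: e :: r) := by
                    rcases a1 a b ha hb hab with ⟨rfl, rfl⟩ | ⟨rfl, rfl⟩
                    · rfl
                    · exact g4 [1] 2 0 _ ha hb hab
                  have e2 : D (1 :: 0 :: 2 :: 1 :: d :: e :: r) =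
                      D (1 :: 0 :: 2 :: 1 :: 2 :: 0 :: r) := by
                    rcases a1 d e hd he hde with ⟨rfl, rfl⟩ | ⟨rfl, rfl⟩
                    · exact g4 [1, 0, 2, 1] 0 2 _ hd he hde
                    · rfl
                  have e3 := g2 [1, 0] 2 1 (0 :: r) (by decide)
                  simp only [List.cons_append, List.nil_append] at e3
                  rw [e1, e2, e3, ih _ (by simp only [List.length_cons]; omega)]
            · by_cases hcb : c = b
              · subst hcb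
                have e := g1 [1, a] c r
                simp only [List.cons_append, List.nil_append] at e
                rw [e, ih _ (by simp only [List.length_cons]; omega), mul_zero]
              · have hca := a2 a b c ha hb hc hab hcb
                subst hca
                have e := g4 [1] c b (c :: r) ha hb hab
                have e' := g1 [1, b] c r
                simp only [List.cons_append, List.nil_append] at e e'
                rw [e, e', ih _ (by simp only [List.length_cons]; omega), mul_zero]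
      · -- a word without a letter 1
        match u, hu, hm with
        | [], _, _ => exact b0
        | [a], _, _ => exact b1 a
        | a :: b :: r, hu, hm =>
          simp only [List.length_cons] at hu
          have ha : a ≠ 1 := by
            rintro rfl
            exact hm (List.mem_cons_self ..)
          have hb : b ≠ 1 := by
            rintro rfl
            exact hm (List.mem_cons_of_mem _ (List.mem_cons_self ..))
          by_cases hab : a = b
          · subst hab
            rw [h1, ih _ (by simp only [List.length_cons]; omega), mul_zero]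
          match r, hu, hm with
          | [], _, _ =>
            rcases a1 a b ha hb hab with ⟨rfl, rfl⟩ | ⟨rfl, rfl⟩
            · exact b2
            · rw [← h3, b2]
          | c :: r, hu, hm =>
            simp only [List.length_cons] at hu
            have hc : c ≠ 1 := by
              rintro rfl
              exact hm (List.mem_cons_of_mem _ (List.mem_cons_of_mem _ (List.mem_cons_self ..)))
            by_cases hcb : c = b
            · subst hcb
              have e := g1 [a] c r
              simp only [List.cons_append, List.nil_append] at e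
              rw [e, ih _ (by simp only [List.length_cons]; omega), mul_zero]
            · have hca := a2 a b c ha hb hc hab hcb
              subst hca
              have e := g4 [] c b (c :: r) ha hb hab
              have e' := g1 [b] c r
              simp only [List.cons_append, List.nil_append] at e e'
              rw [e, e', ih _ (by simp only [List.length_cons]; omega), mul_zero]
  intro u
  exact key (u.length + 1) u (Nat.lt_succ_self _)

/-! ### the number of curves -/

/-- the matrix of a word -/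
noncomputable def TOP_W (u : List (Fin 3)) : Matrix (Col 3) (Col 3) ℕ :=
  (u.map fun a => W a .turn).prod

theorem TOP_W_cons (a : Fin 3) (u : List (Fin 3)) : TOP_W (a :: u) = W a .turn * TOP_W u := by
  unfold TOP_W
  rw [List.map_cons, List.prod_cons]

/-- the letters of `w` which are turned in the state `s` -/
def TOP_t : (w : List (Fin 3 × ℤˣ)) → (Fin (0 + w.length) → Bool) → List (Fin 3)
  | [], _ => []
  | l :: w, s => if s 0 then TOP_t w (Fin.tail s) else l.1 :: TOP_t w (Fin.tail s)

theorem TOP_t_cons (l : Fin 3 × ℤˣ) (w : List (Fin 3 × ℤˣ)) (s : Fin (0 + w.length + 1) → Bool) :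
    TOP_t (l :: w) s = if s 0 then TOP_t w (Fin.tail s) else l.1 :: TOP_t w (Fin.tail s) := rfl

theorem TOP_theta0 (c : Fin 0 → Way) : theta trivialClosure c = 1 := by
  funext x y
  unfold theta
  by_cases hxy : x = y
  · subst hxy
    rw [Matrix.one_apply_eq, Nat.card_eq_one_iff_unique]
    refine ⟨⟨?_⟩, ⟨⟨fun p => match p with
      | (.inl a, _) => x a
      | (.inr (i, _), _) => i.elim0, ?_, ?_, fun a => rfl, fun a => rfl⟩⟩⟩
    · rintro ⟨h, h1, h2, h3, h4⟩ ⟨h', h1', h2', h3', h4'⟩
      rw [Subtype.mk.injEq]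
      funext p
      rcases p with ⟨a | ⟨i, j⟩, b⟩
      · cases b
        · rw [h3, h3']
        · rw [h4, h4']
      · exact i.elim0
    · rintro ⟨a | ⟨i, j⟩, b⟩
      · rfl
      · exact i.elim0
    · intro k
      exact k.elim0
  · rw [Matrix.one_apply_ne hxy, Nat.card_eq_zero]
    left
    constructor
    rintro ⟨h, h1, h2, h3, h4⟩
    apply hxy
    funext a
    rw [← h3 a, ← h4 a]
    exact h1 (.inl a, true)

theorem TOP_ways {n : ℕ} (s : Fin (n + 1) → Bool) :
    ways s = (Fin.cons (if s 0 then .along else .turn) (ways (Fin.tail s)) : Fin (n + 1) → Way) := by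
  funext i
  refine Fin.cases rfl (fun j => rfl) i

theorem TOP_theta (w : List (Fin 3 × ℤˣ)) : ∀ s : Fin (0 + w.length) → Bool,
    theta (trivialClosure.insert w) (ways s) = TOP_W (TOP_t w s) := by
  induction w with
  | nil =>
    intro s
    exact TOP_theta0 _
  | cons l w ih =>
    intro s
    have h1 := TOP_ways (n := 0 + w.length) s
    have h2 := thm_Push 3 (0 + w.length) (trivialClosure.insert w) l.1 l.2
      (if s 0 then .along else .turn) (ways (Fin.tail s))
    rw [← h1, ih] at h2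
    refine h2.trans ?_
    rw [TOP_t_cons]
    by_cases h0 : s 0 = true
    · rw [if_pos h0, if_pos h0]
      exact one_mul (TOP_W (TOP_t w (Fin.tail s)))
    · rw [if_neg h0, if_neg h0, TOP_W_cons]

/-- the number of curves of a word -/
noncomputable def TOP_L (u : List (Fin 3)) : ℕ :=
  (trivialClosure.insert (u.map fun a => (a, 1))).curves (ways fun _ => false)

theorem TOP_t_all (u : List (Fin 3)) : TOP_t (u.map fun a => (a, 1)) (fun _ => false) = u := by
  induction u with
  | nil => rfl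
  | cons a u ih =>
    show (if (false : Bool) = true then _ else a :: TOP_t (u.map fun a => (a, 1)) (fun _ => false)) = _
    rw [ih, if_neg Bool.false_ne_true]

theorem TOP_L_trace (u : List (Fin 3)) : 2 ^ TOP_L u = (TOP_W u).trace := by
  unfold TOP_L
  rw [thm_Close, TOP_theta, TOP_t_all]

theorem TOP_curves (w : List (Fin 3 × ℤˣ)) (s : Fin (0 + w.length) → Bool) :
    (trivialClosure.insert w).curves (ways s) = TOP_L (TOP_t w s) := by
  have h := thm_Close 3 (0 + w.length) (trivialClosure.insert w) (ways s)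
  rw [TOP_theta, ← TOP_L_trace] at h
  exact Nat.pow_right_injective le_rfl h

theorem TOP_L_eq (u v : List (Fin 3)) (h : (TOP_W u).trace = (TOP_W v).trace) : TOP_L u = TOP_L v := by
  rw [← TOP_L_trace, ← TOP_L_trace] at h
  exact Nat.pow_right_injective le_rfl h

theorem TOP_sq : ∀ i : Fin 3, W i .turn * W i .turn = W i .turn + W i .turn := by
  have key : ∀ (i : Fin 3) (x y : Col 3), (W i .turn * W i .turn) x y =
      (W i .turn + W i .turn) x y := by
    decide +kernel
  intro i
  funext x y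
  exact key i x y

theorem TOP_comm : W (0 : Fin 3) .turn * W (2 : Fin 3) .turn =
    W (2 : Fin 3) .turn * W (0 : Fin 3) .turn := by
  funext x y
  revert x y
  decide +kernel

theorem TOP_L1 (i : Fin 3) (y : List (Fin 3)) : TOP_L (i :: i :: y) = TOP_L (i :: y) + 1 := by
  have h : 2 ^ TOP_L (i :: i :: y) = 2 ^ (TOP_L (i :: y) + 1) := by
    rw [pow_succ, TOP_L_trace, TOP_L_trace, TOP_W_cons, TOP_W_cons, ← mul_assoc, TOP_sq, add_mul,
      trace_add]
    ring
  exact Nat.pow_right_injective le_rfl h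

theorem TOP_L2 (i j : Fin 3) (y : List (Fin 3)) (h : i.val + 1 = j.val ∨ j.val + 1 = i.val) :
    TOP_L (i :: j :: i :: y) = TOP_L (i :: y) := by
  apply TOP_L_eq
  rw [TOP_W_cons, TOP_W_cons, TOP_W_cons, ← mul_assoc, ← mul_assoc,
    W_TL thm_PgTurn thm_PgTL i j h]

theorem TOP_L3 (y : List (Fin 3)) : TOP_L (0 :: 2 :: y) = TOP_L (2 :: 0 :: y) := by
  apply TOP_L_eq
  rw [TOP_W_cons, TOP_W_cons, TOP_W_cons, TOP_W_cons, ← mul_assoc, ← mul_assoc, TOP_comm]

theorem TOP_L4 (a : Fin 3) (y : List (Fin 3)) : TOP_L (a :: y) = TOP_L (y ++ [a]) := by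
  apply TOP_L_eq
  have h : TOP_W (y ++ [a]) = TOP_W y * W a .turn := by
    unfold TOP_W
    rw [List.map_append, List.prod_append]
    simp
  rw [h, TOP_W_cons, trace_mul_comm]

theorem TOP_Lval (u : List (Fin 3)) (m : ℕ) (h : (TOP_W u).trace = 2 ^ m) : TOP_L u = m := by
  rw [← TOP_L_trace] at h
  exact Nat.pow_right_injective le_rfl h

/-! ### the sum over the states -/

/-- the sum over the states, with the weights `A ^ ε` and `A ^ (-ε)` for the letter not turned and
turned -/
noncomputable def TOP_S (A : ℂ) : List (Fin 3 × ℤˣ) → (List (Fin 3) → ℂ) → ℂ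
  | [], F => F []
  | l :: w, F => A ^ (l.2 : ℤ) * TOP_S A w F + A ^ (-(l.2 : ℤ)) * TOP_S A w (fun u => F (l.1 :: u))

theorem TOP_S_cons (A : ℂ) (l : Fin 3 × ℤˣ) (w : List (Fin 3 × ℤˣ)) (F : List (Fin 3) → ℂ) :
    TOP_S A (l :: w) F = A ^ (l.2 : ℤ) * TOP_S A w F +
      A ^ (-(l.2 : ℤ)) * TOP_S A w (fun u => F (l.1 :: u)) := rfl

theorem TOP_S_state (A : ℂ) (w : List (Fin 3 × ℤˣ)) : ∀ F : List (Fin 3) → ℂ,
    ∑ s : Fin (0 + w.length) → Bool, (∏ x, A ^ (if s x then
      ((trivialClosure.insert w).kind x : ℤ) else -((trivialClosure.insert w).kind x : ℤ))) *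
        F (TOP_t w s) = TOP_S A w F := by
  induction w with
  | nil =>
    intro F
    show ∑ s : Fin 0 → Bool, (∏ x : Fin 0, _) * F [] = F []
    simp
  | cons l w ih =>
    intro F
    rw [TOP_S_cons, ← ih F, ← ih fun u => F (l.1 :: u)]
    show ∑ s : Fin (0 + w.length + 1) → Bool, (∏ x : Fin (0 + w.length + 1), A ^ (if s x then
      (((trivialClosure.insert w).push l.1 l.2).kind x : ℤ) else
        -(((trivialClosure.insert w).push l.1 l.2).kind x : ℤ))) * F (TOP_t (l :: w) s) = _
    rw [← (Fin.consEquiv (fun _ : Fin (0 + w.length + 1) => Bool)).sum_comp,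
      Fintype.sum_prod_type, Fintype.sum_bool, Finset.mul_sum, Finset.mul_sum]
    refine congrArg₂ (· + ·) (Finset.sum_congr rfl fun s _ => ?_) (Finset.sum_congr rfl fun s _ => ?_)
    · rw [Fin.prod_univ_succ, ← mul_assoc]
      rfl
    · rw [Fin.prod_univ_succ, ← mul_assoc]
      rfl

theorem TOP_S_add (A : ℂ) (w : List (Fin 3 × ℤˣ)) : ∀ F G : List (Fin 3) → ℂ,
    TOP_S A w (fun u => F u + G u) = TOP_S A w F + TOP_S A w G := by
  induction w with
  | nil => exact fun F G => rfl
  | cons l w ih =>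
    intro F G
    rw [TOP_S_cons, TOP_S_cons, TOP_S_cons, ih F G, ih (fun u => F (l.1 :: u)) fun u => G (l.1 :: u)]
    ring

theorem TOP_S_mul (A : ℂ) (c : ℂ) (w : List (Fin 3 × ℤˣ)) : ∀ F : List (Fin 3) → ℂ,
    TOP_S A w (fun u => c * F u) = c * TOP_S A w F := by
  induction w with
  | nil => exact fun F => rfl
  | cons l w ih =>
    intro F
    rw [TOP_S_cons, TOP_S_cons, ih F, ih fun u => F (l.1 :: u)]
    ring

/-! ### representations -/

section

variable {R : Type} [Ring R] [Algebra ℂ R]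

/-- the factor of a letter -/
noncomputable def TOP_fac (A : ℂ) (e : Fin 3 → R) (l : Fin 3 × ℤˣ) : R :=
  A ^ (l.2 : ℤ) • (1 : R) + A ^ (-(l.2 : ℤ)) • e l.1

theorem TOP_S_rep (A : ℂ) (e : Fin 3 → R) (w : List (Fin 3 × ℤˣ)) : ∀ φ : R →ₗ[ℂ] ℂ,
    TOP_S A w (fun u => φ (u.map e).prod) = φ (w.map (TOP_fac A e)).prod := by
  induction w with
  | nil => exact fun φ => rfl
  | cons l w ih =>
    intro φ
    rw [TOP_S_cons, ih φ]
    have h1 := ih (φ ∘ₗ LinearMap.mulLeft ℂ (e l.1))
    have h2 : (fun u : List (Fin 3) => φ ((l.1 :: u).map e).prod) =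
        fun u => (φ ∘ₗ LinearMap.mulLeft ℂ (e l.1)) (u.map e).prod := by
      funext u
      rw [List.map_cons, List.prod_cons]
      rfl
    rw [h2, h1, List.map_cons, List.prod_cons]
    unfold TOP_fac
    rw [add_mul, smul_mul_assoc, smul_mul_assoc, one_mul, map_add, map_smul, map_smul]
    rfl

theorem TOP_pow (δ c : ℂ) (hδ : δ ≠ 0) (e : R) (he : e * e = δ • e) (n : ℕ) :
    (1 + c • e) ^ n = 1 + (((1 + c * δ) ^ n - 1) / δ) • e := by
  induction n with
  | zero => simp
  | succ n ih =>
    rw [pow_succ, ih, mul_add, mul_one, add_mul, one_mul, smul_mul_smul_comm, he, smul_smul,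
      add_assoc, ← add_smul, ← add_smul]
    congr 2
    field_simp
    ring

/-! ### the value of `A` -/

/-- the loop value -/
noncomputable def TOP_dl (θ : ℝ) : ℝ := 2 * Real.sin (θ / 2)

/-- the weight of a syllable -/
noncomputable def TOP_wt (θ : ℝ) (a : ℤ) : ℂ := Complex.exp (((-θ * a : ℝ) : ℂ) * Complex.I)

theorem TOP_wt_zpow (θ : ℝ) (a : ℤ) :
    TOP_wt θ a = (Complex.exp (-((θ : ℂ) * Complex.I))) ^ a := by
  unfold TOP_wt
  rw [← Complex.exp_int_mul]
  congr 1
  push_cast
  ring

theorem TOP_Ane (θ : ℝ) : SPT.Aθ θ ≠ 0 := Complex.exp_ne_zero _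

theorem TOP_Anorm (θ : ℝ) : ‖SPT.Aθ θ‖ = 1 := Complex.norm_exp_ofReal_mul_I _

theorem TOP_A2 (θ : ℝ) : SPT.Aθ θ ^ 2 =
    Complex.exp (((Real.pi / 2 + θ / 2 : ℝ) : ℂ) * Complex.I) := by
  unfold SPT.Aθ
  rw [← Complex.exp_nat_mul]
  congr 1
  push_cast
  ring

theorem TOP_Ad (θ : ℝ) : -(SPT.Aθ θ) ^ 2 - ((SPT.Aθ θ)⁻¹) ^ 2 = ((TOP_dl θ : ℝ) : ℂ) := by
  have h1 : ((SPT.Aθ θ)⁻¹) ^ 2 =
      Complex.exp (-(((Real.pi / 2 + θ / 2 : ℝ) : ℂ) * Complex.I)) := by
    rw [inv_pow, TOP_A2, Complex.exp_neg]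
  rw [h1, TOP_A2]
  have h2 := Complex.two_cos (((Real.pi / 2 + θ / 2 : ℝ) : ℂ))
  rw [neg_mul] at h2
  rw [← neg_add', ← h2, ← Complex.ofReal_cos, add_comm (Real.pi / 2), Real.cos_add_pi_div_two]
  unfold TOP_dl
  push_cast
  ring

theorem TOP_A4 (θ : ℝ) : SPT.Aθ θ ^ 4 = -Complex.exp ((θ : ℂ) * Complex.I) := by
  have h2 : SPT.Aθ θ ^ 4 = (SPT.Aθ θ ^ 2) ^ 2 := by rw [← pow_mul]
  rw [h2, TOP_A2, ← Complex.exp_nat_mul]
  have h3 : ((2 : ℕ) : ℂ) * (((Real.pi / 2 + θ / 2 : ℝ) : ℂ) * Complex.I) =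
      (θ : ℂ) * Complex.I + Real.pi * Complex.I := by
    push_cast
    ring
  rw [h3, Complex.exp_add, Complex.exp_pi_mul_I]
  ring

theorem TOP_dl_pos {θ : ℝ} (h0 : 0 < θ) (h1 : θ < 1) : 0 < TOP_dl θ := by
  unfold TOP_dl
  have h2 : 0 < Real.sin (θ / 2) :=
    Real.sin_pos_of_pos_of_lt_pi (by linarith) (by linarith [Real.pi_gt_three])
  linarith

/-- `1 + A ^ (-2 ε) δ = exp (-i ε θ)` -/
theorem TOP_one_add (θ : ℝ) (ε : ℤˣ) :
    1 + (SPT.Aθ θ) ^ (-2 * (ε : ℤ)) * ((TOP_dl θ : ℝ) : ℂ) = TOP_wt θ ε := by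
  have hA := TOP_Ane θ
  rw [← TOP_Ad, TOP_wt_zpow]
  have h4 := TOP_A4 θ
  rw [Complex.exp_neg]
  have h5 : Complex.exp ((θ : ℂ) * Complex.I) = -SPT.Aθ θ ^ 4 := by rw [h4, neg_neg]
  rw [h5]
  rcases Int.units_eq_one_or ε with rfl | rfl
  · have e1 : (SPT.Aθ θ) ^ (-2 * ((1 : ℤˣ) : ℤ)) = ((SPT.Aθ θ) ^ 2)⁻¹ := by
      rw [Units.val_one, mul_one, _root_.zpow_neg]
      norm_cast
    rw [e1, Units.val_one, zpow_one]
    field_simp
    ring
  · have e1 : (SPT.Aθ θ) ^ (-2 * ((-1 : ℤˣ) : ℤ)) = (SPT.Aθ θ) ^ 2 := by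
      norm_num
    rw [e1]
    have e2 : (((-SPT.Aθ θ ^ 4)⁻¹ : ℂ)) ^ ((-1 : ℤˣ) : ℤ) = -SPT.Aθ θ ^ 4 := by
      rw [Units.val_neg, Units.val_one, _root_.zpow_neg_one, inv_inv]
    rw [e2]
    field_simp
    ring

theorem TOP_fac_eq (θ : ℝ) (e : Fin 3 → R) (i : Fin 3) (ε : ℤˣ) :
    TOP_fac (SPT.Aθ θ) e (i, ε) =
      (SPT.Aθ θ) ^ (ε : ℤ) • (1 + (SPT.Aθ θ) ^ (-2 * (ε : ℤ)) • e i) := by
  unfold TOP_fac
  rw [smul_add, smul_smul, ← zpow_add₀ (TOP_Ane θ)]
  congr 3
  ring

/-- the block factor of a syllable -/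
noncomputable def TOP_blk (θ : ℝ) (e : Fin 3 → R) (i : Fin 3) (a : ℤ) : R :=
  1 + ((TOP_wt θ a - 1) / ((TOP_dl θ : ℝ) : ℂ)) • e i

theorem TOP_syllable (θ : ℝ) (hδ : ((TOP_dl θ : ℝ) : ℂ) ≠ 0) (e : Fin 3 → R)
    (he : ∀ i, e i * e i = ((TOP_dl θ : ℝ) : ℂ) • e i) (i : Fin 3) (a : ℤ) :
    ((syllable i a).map (TOP_fac (SPT.Aθ θ) e)).prod =
      (SPT.Aθ θ) ^ a • TOP_blk θ e i a := by
  unfold syllable
  set ε : ℤˣ := if 0 ≤ a then 1 else -1 with hε
  have h1 : (ε : ℤ) * (a.natAbs : ℤ) = a := by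
    rw [hε]
    split_ifs with h
    · rw [Units.val_one, one_mul]
      omega
    · rw [Units.val_neg, Units.val_one]
      omega
  rw [List.map_replicate, List.prod_replicate, TOP_fac_eq, smul_pow, TOP_pow _ _ hδ _ (he i),
    TOP_one_add, ← zpow_natCast, ← _root_.zpow_mul, h1, TOP_wt_zpow, ← zpow_natCast,
    ← _root_.zpow_mul, h1, ← TOP_wt_zpow]
  rfl

/-- the sum of the exponents -/
def TOP_tot (β : List (ℤ × ℤ × ℤ)) : ℤ := (β.map fun t => t.2.2 + (t.1 + t.2.1)).sum

theorem TOP_word (θ : ℝ) (hδ : ((TOP_dl θ : ℝ) : ℂ) ≠ 0) (e : Fin 3 → R)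
    (he : ∀ i, e i * e i = ((TOP_dl θ : ℝ) : ℂ) • e i) (β : List (ℤ × ℤ × ℤ)) :
    ((word β).map (TOP_fac (SPT.Aθ θ) e)).prod = (SPT.Aθ θ) ^ TOP_tot β •
      (β.map fun t => TOP_blk θ e 1 t.2.2 * (TOP_blk θ e 0 t.1 * TOP_blk θ e 2 t.2.1)).prod := by
  induction β with
  | nil => simp [word, TOP_tot]
  | cons t β ih =>
    have h1 : word (t :: β) = syllable 1 t.2.2 ++ (syllable 0 t.1 ++ syllable 2 t.2.1) ++ word β := by
      unfold word
      rw [List.map_cons, List.flatten_cons]
    have h2 : TOP_tot (t :: β) = (t.2.2 + (t.1 + t.2.1)) + TOP_tot β := by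
      unfold TOP_tot
      rw [List.map_cons, List.sum_cons]
    rw [h1, h2, List.map_append, List.map_append, List.map_append, List.prod_append,
      List.prod_append, List.prod_append, ih, TOP_syllable θ hδ e he, TOP_syllable θ hδ e he,
      TOP_syllable θ hδ e he, List.map_cons, List.prod_cons, zpow_add₀ (TOP_Ane θ),
      zpow_add₀ (TOP_Ane θ), zpow_add₀ (TOP_Ane θ)]
    simp only [smul_mul_smul_comm]

end

/-! ### the two representations -/

/-- the representation on `3` colours -/
noncomputable def TOP_E3 (δ : ℂ) (i : Fin 3) : Matrix (Fin 3) (Fin 3) ℂ :=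
  if i = 0 then !![δ, 0, 0; 0, 0, 0; 0, 0, 0] else if i = 1 then
    δ⁻¹ • !![1, 1, δ ^ 2 - 2; 1, 1, δ ^ 2 - 2; 1, 1, δ ^ 2 - 2] else !![0, 0, 0; 0, δ, 0; 0, 0, 0]

/-- the representation on `2` colours -/
noncomputable def TOP_E2 (δ : ℂ) (i : Fin 3) : Matrix (Fin 2) (Fin 2) ℂ :=
  if i = 1 then δ⁻¹ • !![1, δ ^ 2 - 1; 1, δ ^ 2 - 1] else !![δ, 0; 0, 0]

/-- the rules of the Temperley-Lieb algebra -/
def TOP_TL {R : Type} [Ring R] [Algebra ℂ R] (δ : ℂ) (e : Fin 3 → R) : Prop :=
  (∀ i, e i * e i = δ • e i) ∧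
  (∀ i j : Fin 3, (i.val + 1 = j.val ∨ j.val + 1 = i.val) → e i * e j * e i = e i) ∧
  e 0 * e 2 = e 2 * e 0

theorem TOP_TL3 (δ : ℂ) (hδ : δ ≠ 0) : TOP_TL δ (TOP_E3 δ) := by
  refine ⟨?_, ?_, ?_⟩
  · intro i
    fin_cases i <;> (ext a b; fin_cases a <;> fin_cases b <;>
      simp [TOP_E3, Matrix.mul_apply, Fin.sum_univ_three] <;> field_simp <;> ring)
  · intro i j hij
    fin_cases i <;> fin_cases j <;> first | (exfalso; revert hij; decide) |
      (ext a b; fin_cases a <;> fin_cases b <;>
        simp [TOP_E3, Matrix.mul_apply, Fin.sum_univ_three] <;> field_simp)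
  · ext a b
    fin_cases a <;> fin_cases b <;> simp [TOP_E3, Matrix.mul_apply, Fin.sum_univ_three]

theorem TOP_TL2 (δ : ℂ) (hδ : δ ≠ 0) : TOP_TL δ (TOP_E2 δ) := by
  refine ⟨?_, ?_, ?_⟩
  · intro i
    fin_cases i <;> (ext a b; fin_cases a <;> fin_cases b <;>
      simp [TOP_E2, Matrix.mul_apply, Fin.sum_univ_two] <;> field_simp <;> ring)
  · intro i j hij
    fin_cases i <;> fin_cases j <;> first | (exfalso; revert hij; decide) |
      (ext a b; fin_cases a <;> fin_cases b <;>
        simp [TOP_E2, Matrix.mul_apply, Fin.sum_univ_two] <;> field_simp)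
  · ext a b
    fin_cases a <;> fin_cases b <;> simp [TOP_E2, Matrix.mul_apply, Fin.sum_univ_two]

/-- the trace of a word in a representation -/
noncomputable def TOP_tr {m : ℕ} (e : Fin 3 → Matrix (Fin m) (Fin m) ℂ) (u : List (Fin 3)) : ℂ :=
  (u.map e).prod.trace

theorem TOP_tr_rules {m : ℕ} (δ : ℂ) (e : Fin 3 → Matrix (Fin m) (Fin m) ℂ) (h : TOP_TL δ e) :
    (∀ i y, TOP_tr e (i :: i :: y) = δ * TOP_tr e (i :: y)) ∧
    (∀ (i j : Fin 3) (y : List (Fin 3)), (i.val + 1 = j.val ∨ j.val + 1 = i.val) →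
      TOP_tr e (i :: j :: i :: y) = TOP_tr e (i :: y)) ∧
    (∀ y, TOP_tr e (0 :: 2 :: y) = TOP_tr e (2 :: 0 :: y)) ∧
    ∀ a y, TOP_tr e (a :: y) = TOP_tr e (y ++ [a]) := by
  obtain ⟨h1, h2, h3⟩ := h
  unfold TOP_tr
  refine ⟨?_, ?_, ?_, ?_⟩
  · intro i y
    simp only [List.map_cons, List.prod_cons]
    rw [← mul_assoc, h1, smul_mul_assoc, trace_smul, smul_eq_mul]
  · intro i j y hij
    simp only [List.map_cons, List.prod_cons]
    rw [← mul_assoc, ← mul_assoc, h2 i j hij]
  · intro y
    simp only [List.map_cons, List.prod_cons]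
    rw [← mul_assoc, ← mul_assoc, h3]
  · intro a y
    simp only [List.map_cons, List.prod_cons, List.map_append, List.prod_append, List.map_nil,
      List.prod_nil, mul_one]
    exact trace_mul_comm _ _

/-- one at the empty word -/
noncomputable def TOP_one (u : List (Fin 3)) : ℂ := (u.map fun _ => (0 : ℂ)).prod

theorem TOP_one_cons (a : Fin 3) (u : List (Fin 3)) : TOP_one (a :: u) = 0 := by
  unfold TOP_one
  rw [List.map_cons, List.prod_cons, zero_mul]

theorem TOP_one_snoc (a : Fin 3) (u : List (Fin 3)) : TOP_one (u ++ [a]) = 0 := by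
  unfold TOP_one
  simp

/-- the number of curves from the traces -/
theorem TOP_curves_eq (δ : ℂ) (hδ : δ ≠ 0) (u : List (Fin 3)) :
    δ ^ TOP_L u = (δ ^ 4 - 3 * δ ^ 2 + 1) * TOP_one u +
      ((δ ^ 2 - 1) * TOP_tr (TOP_E3 δ) u + TOP_tr (TOP_E2 δ) u) := by
  obtain ⟨p1, p2, p3, p4⟩ := TOP_tr_rules δ (TOP_E3 δ) (TOP_TL3 δ hδ)
  obtain ⟨q1, q2, q3, q4⟩ := TOP_tr_rules δ (TOP_E2 δ) (TOP_TL2 δ hδ)
  have key := TOP_red δ (fun u => δ ^ TOP_L u - ((δ ^ 4 - 3 * δ ^ 2 + 1) * TOP_one u +
      ((δ ^ 2 - 1) * TOP_tr (TOP_E3 δ) u + TOP_tr (TOP_E2 δ) u)))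
  have t0 : TOP_L [] = 4 := TOP_Lval _ _ (by
    show (1 : Matrix (Col 3) (Col 3) ℕ).trace = 2 ^ 4
    simp)
  have ts : ∀ i : Fin 3, (W i .turn).trace = 2 ^ 3 := by decide +kernel
  have t1 : ∀ i, TOP_L [i] = 3 := fun i => TOP_Lval _ _ (by
    have : TOP_W [i] = W i .turn := by
      rw [TOP_W_cons]
      exact mul_one _
    rw [this, ts])
  have td : ∀ i j : Fin 3, TOP_W [i, j] = W i .turn * W j .turn := by
    intro i j
    rw [TOP_W_cons, TOP_W_cons]
    exact congrArg _ (mul_one _)
  have t2 : TOP_L [0, 2] = 2 := TOP_Lval _ _ (by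
    rw [td]
    decide +kernel)
  have t3 : TOP_L [1, 0] = 2 := TOP_Lval _ _ (by
    rw [td]
    decide +kernel)
  have t4 : TOP_L [1, 2] = 2 := TOP_Lval _ _ (by
    rw [td]
    decide +kernel)
  have t5 : TOP_L [1, 0, 2] = 1 := TOP_Lval _ _ (by
    rw [TOP_W_cons, td]
    decide +kernel)
  have h := key ?_ ?_ ?_ ?_ ?_ ?_ ?_ ?_ ?_ ?_ u
  · exact sub_eq_zero.1 h
  · intro i y
    rw [TOP_L1, TOP_one_cons, TOP_one_cons, p1, q1, pow_succ]
    ring
  · intro i j y hij
    rw [TOP_L2 i j y hij, TOP_one_cons, TOP_one_cons, p2 i j y hij, q2 i j y hij]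
  · intro y
    rw [TOP_L3, TOP_one_cons, TOP_one_cons, p3, q3]
  · intro a y
    rw [TOP_L4, TOP_one_cons, TOP_one_snoc, p4, q4]
  · simp only [t0]
    simp [TOP_one, TOP_tr]
    ring
  · intro i
    simp only [t1]
    fin_cases i <;> simp [TOP_one, TOP_tr, TOP_E3, TOP_E2, Matrix.trace_fin_three,
      Matrix.trace_fin_two] <;> field_simp <;> ring
  · show δ ^ TOP_L [0, 2] - _ = 0
    rw [t2]
    simp [TOP_one, TOP_tr, TOP_E3, TOP_E2, Matrix.trace_fin_three, Matrix.trace_fin_two]
    ring
  · show δ ^ TOP_L [1, 0] - _ = 0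
    rw [t3]
    simp [TOP_one, TOP_tr, TOP_E3, TOP_E2, Matrix.trace_fin_three, Matrix.trace_fin_two]
    field_simp
    ring
  · show δ ^ TOP_L [1, 2] - _ = 0
    rw [t4]
    simp [TOP_one, TOP_tr, TOP_E3, TOP_E2, Matrix.trace_fin_three, Matrix.trace_fin_two]
    field_simp
    ring
  · show δ ^ TOP_L [1, 0, 2] - _ = 0
    rw [t5]
    simp [TOP_one, TOP_tr, TOP_E3, TOP_E2, Matrix.trace_fin_three, Matrix.trace_fin_two]
    field_simp
    ring

/-! ### the theorem -/

theorem TOP_val_T (θ : ℝ) (k : ℤ) : valueAt θ (T k) = (SPT.Aθ θ) ^ k := by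
  unfold valueAt
  rw [LaurentPolynomial.eval₂_T, Units.val_zpow_eq_zpow_val]
  rfl

theorem TOP_bracket (θ : ℝ) (w : List (Fin 3 × ℤˣ)) :
    ((TOP_dl θ : ℝ) : ℂ) * valueAt θ (trivialClosure.insert w).bracket =
      TOP_S (SPT.Aθ θ) w fun u => ((TOP_dl θ : ℝ) : ℂ) ^ TOP_L u := by
  rw [← TOP_S_state]
  have h1 : valueAt θ (trivialClosure.insert w).bracket =
      ∑ s : Fin (0 + w.length) → Bool, (∏ x, (SPT.Aθ θ) ^ (if s x then
        ((trivialClosure.insert w).kind x : ℤ) else -((trivialClosure.insert w).kind x : ℤ))) *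
          ((TOP_dl θ : ℝ) : ℂ) ^ ((trivialClosure.insert w).curves (ways s) - 1) := by
    unfold Diagram.bracket
    have hv : ∀ f, valueAt θ f = LaurentPolynomial.eval₂ (Int.castRingHom ℂ)
      (Units.mk0 (SPT.Aθ θ) (Complex.exp_ne_zero _)) f := fun f => rfl
    have hd : valueAt θ (-T 2 - T (-2)) = ((TOP_dl θ : ℝ) : ℂ) := by
      rw [← TOP_Ad, hv, map_sub, map_neg, ← hv, ← hv, TOP_val_T, TOP_val_T, _root_.zpow_neg,
        inv_pow]
      norm_cast
    rw [hv, map_sum]
    refine Finset.sum_congr rfl fun s _ => ?_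
    rw [map_mul, map_pow, map_prod, ← hv, hd]
    congr 1
    refine Finset.prod_congr rfl fun x _ => ?_
    rw [← hv, TOP_val_T]
  rw [h1, Finset.mul_sum]
  refine Finset.sum_congr rfl fun s _ => ?_
  rw [← TOP_curves w s, mul_left_comm, ← pow_succ',
    Nat.sub_add_cancel (curves_pos (trivialClosure.insert w) (ways s))]

theorem TOP_EE (θ : ℝ) (h0 : 0 < θ) (h1 : θ < 1) (β : List (ℤ × ℤ × ℤ)) :
    ((TOP_dl θ : ℝ) : ℂ) * valueAt θ (closure β).bracket =
      (SPT.Aθ θ) ^ TOP_tot β * EE (TOP_dl θ ^ 2) (β.map (weights θ)) := by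
  have hδ : ((TOP_dl θ : ℝ) : ℂ) ≠ 0 := Complex.ofReal_ne_zero.2 (TOP_dl_pos h0 h1).ne'
  set δ : ℂ := ((TOP_dl θ : ℝ) : ℂ) with hδd
  have hQ : (((TOP_dl θ ^ 2 : ℝ)) : ℂ) = δ ^ 2 := by rw [Complex.ofReal_pow]
  have e0 : (fun u => δ ^ TOP_L u) = fun u => (δ ^ 4 - 3 * δ ^ 2 + 1) * TOP_one u +
      ((δ ^ 2 - 1) * TOP_tr (TOP_E3 δ) u + TOP_tr (TOP_E2 δ) u) := by
    funext u
    exact TOP_curves_eq δ hδ u
  -- the three parts
  have p1 : TOP_S (SPT.Aθ θ) (word β) TOP_one = (SPT.Aθ θ) ^ TOP_tot β := by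
    have h2 := TOP_S_rep (SPT.Aθ θ) (fun _ => (0 : ℂ)) (word β) LinearMap.id
    have h3 := TOP_word θ hδ (fun _ => (0 : ℂ)) (fun i => by simp) β
    have h4 : (fun u : List (Fin 3) => (LinearMap.id : ℂ →ₗ[ℂ] ℂ) (u.map fun _ => (0 : ℂ)).prod) =
        TOP_one := rfl
    rw [h4] at h2
    rw [h2, LinearMap.id_apply, h3]
    have h5 : ∀ t : ℤ × ℤ × ℤ, TOP_blk θ (fun _ => (0 : ℂ)) 1 t.2.2 *
        (TOP_blk θ (fun _ => (0 : ℂ)) 0 t.1 * TOP_blk θ (fun _ => (0 : ℂ)) 2 t.2.1) = 1 := by
      intro t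
      simp [TOP_blk]
    simp only [h5]
    simp
  have p3 : TOP_S (SPT.Aθ θ) (word β) (TOP_tr (TOP_E3 δ)) = (SPT.Aθ θ) ^ TOP_tot β *
      ((β.map (weights θ)).map (T3 (TOP_dl θ ^ 2))).prod.trace := by
    have h2 := TOP_S_rep (SPT.Aθ θ) (TOP_E3 δ) (word β) (Matrix.traceLinearMap (Fin 3) ℂ ℂ)
    have h3 := TOP_word θ hδ (TOP_E3 δ) (TOP_TL3 δ hδ).1 β
    have h4 : (fun u : List (Fin 3) => Matrix.traceLinearMap (Fin 3) ℂ ℂ (u.map (TOP_E3 δ)).prod) =
        TOP_tr (TOP_E3 δ) := rfl
    rw [h4] at h2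
    rw [h2, h3, map_smul, smul_eq_mul, Matrix.traceLinearMap_apply, List.map_map]
    congr 4
    funext t
    unfold T3 TOP_blk
    simp only [Function.comp_apply, weights, hQ]
    ext a b
    fin_cases a <;> fin_cases b <;>
      simp [TOP_E3, TOP_wt, Matrix.mul_apply, Fin.sum_univ_three, Matrix.diagonal, ← hδd] <;>
      field_simp <;> ring
  have p2 : TOP_S (SPT.Aθ θ) (word β) (TOP_tr (TOP_E2 δ)) = (SPT.Aθ θ) ^ TOP_tot β *
      ((β.map (weights θ)).map (T2 (TOP_dl θ ^ 2))).prod.trace := by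
    have h2 := TOP_S_rep (SPT.Aθ θ) (TOP_E2 δ) (word β) (Matrix.traceLinearMap (Fin 2) ℂ ℂ)
    have h3 := TOP_word θ hδ (TOP_E2 δ) (TOP_TL2 δ hδ).1 β
    have h4 : (fun u : List (Fin 3) => Matrix.traceLinearMap (Fin 2) ℂ ℂ (u.map (TOP_E2 δ)).prod) =
        TOP_tr (TOP_E2 δ) := rfl
    rw [h4] at h2
    rw [h2, h3, map_smul, smul_eq_mul, Matrix.traceLinearMap_apply, List.map_map]
    congr 4
    funext t
    unfold T2 TOP_blk
    simp only [Function.comp_apply, weights, hQ]
    ext a b
    fin_cases a <;> fin_cases b <;>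
      simp [TOP_E2, TOP_wt, Matrix.mul_apply, Fin.sum_univ_two, Matrix.diagonal, ← hδd] <;>
      field_simp <;> ring
  unfold closure
  rw [TOP_bracket, ← hδd, e0, TOP_S_add, TOP_S_mul, TOP_S_add, TOP_S_mul, p1, p2, p3]
  unfold EE
  rw [hQ]
  ring

/-- **Module TOP** -/
theorem thm_Top : St_Top := by
  intro β θ h0 h1 o ho
  have h2 := congrArg norm (TOP_EE θ h0 h1 β)
  rw [norm_mul, norm_mul, norm_zpow, TOP_Anorm, _root_.one_zpow, one_mul, Complex.norm_real,
    Real.norm_of_nonneg (TOP_dl_pos h0 h1).le] at h2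
  have h3 : ‖valueAt θ ((closure β).normalized o)‖ = ‖valueAt θ (closure β).bracket‖ := by
    have hv : ∀ f, valueAt θ f = LaurentPolynomial.eval₂ (Int.castRingHom ℂ)
      (Units.mk0 (SPT.Aθ θ) (Complex.exp_ne_zero _)) f := fun f => rfl
    unfold Diagram.normalized
    rw [hv, map_mul, map_mul, norm_mul, norm_mul, ← hv, ← hv, ← hv, TOP_val_T, norm_zpow, TOP_Anorm,
      _root_.one_zpow, mul_one]
    have h4 : ‖valueAt θ (C (((-1 : ℤˣ) ^ (closure β).writhe o : ℤˣ) : ℤ))‖ = 1 := by
      rw [hv, LaurentPolynomial.eval₂_C]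
      rcases Int.units_eq_one_or ((-1 : ℤˣ) ^ (closure β).writhe o) with h | h
      · rw [h]
        simp
      · rw [h]
        simp
    rw [h4, one_mul]
  rw [h3]
  exact h2

end Pool.Agent.FB
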