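import Mathlib
import Pool.Agent.FB.Defs
import Pool.Agent.SPT.Fin

/-!
# FB: assembly
-/

set_option autoImplicit false

namespace Pool.Agent.FB

open LaurentPolynomial Pool.RU

/-- the weight of a syllable -/
noncomputable def wt (θ : ℝ) (a : ℤ) : ℂ := Complex.exp (((-θ * a : ℝ) : ℂ) * Complex.I)

theorem wt_zero (θ : ℝ) : wt θ 0 = 1 := by
  unfold wt
  simp

theorem wt_norm (θ : ℝ) (a : ℤ) : ‖wt θ a‖ = 1 := Complex.norm_exp_ofReal_mul_I _

theorem wt_add (θ : ℝ) (a b : ℤ) : wt θ a * wt θ b = wt θ (a + b) := by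
  unfold wt
  rw [← Complex.exp_add]
  congr 1
  push_cast
  ring

theorem weights_eq (θ : ℝ) (t : ℤ × ℤ × ℤ) :
    weights θ t = (wt θ t.1, wt θ t.2.1, wt θ t.2.2) := rfl

/-- the lengths which occur -/
def Occurs (M : ℤ) (β : List (ℤ × ℤ × ℤ)) (a : ℤ) : Prop :=
  M ≤ |a| ∧ ((∃ t ∈ β, a = t.1 ∨ a = t.2.1 ∨ a = t.2.2) ∨ ∃ s ∈ β, ∃ t ∈ β, a = s.2.2 + t.2.2)

theorem far_of (η θ : ℝ) (hη : 0 < η) (M N : ℤ) (β : List (ℤ × ℤ × ℤ)) (hβ : Long M N β)
    (h : ∀ a, Occurs M β a → η ≤ ‖wt θ a - 1‖) : FarList η (β.map (weights θ)) := by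
  obtain ⟨h1, h2, h3, h4⟩ := hβ
  have hne : ∀ a, Occurs M β a → wt θ a ≠ 1 := by
    intro a ha h0
    have h5 := h a ha
    rw [h0, sub_self, norm_zero] at h5
    linarith
  have hA : ∀ t ∈ β, t.1 ≠ 0 → Occurs M β t.1 := fun t ht h0 =>
    ⟨((h1 t ht).2.1.resolve_left h0).1, Or.inl ⟨t, ht, Or.inl rfl⟩⟩
  have hC : ∀ t ∈ β, t.2.1 ≠ 0 → Occurs M β t.2.1 := fun t ht h0 =>
    ⟨((h1 t ht).2.2.1.resolve_left h0).1, Or.inl ⟨t, ht, Or.inr (Or.inl rfl)⟩⟩
  have hB : ∀ t ∈ β, Occurs M β t.2.2 := fun t ht =>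
    ⟨(h1 t ht).1.1, Or.inl ⟨t, ht, Or.inr (Or.inr rfl)⟩⟩
  have hA1 : ∀ t ∈ β, wt θ t.1 = 1 → t.1 = 0 := by
    intro t ht h0
    by_contra h5
    exact hne _ (hA t ht h5) h0
  have hC1 : ∀ t ∈ β, wt θ t.2.1 = 1 → t.2.1 = 0 := by
    intro t ht h0
    by_contra h5
    exact hne _ (hC t ht h5) h0
  refine ⟨?_, ?_, ?_, ?_⟩
  · intro w hw
    obtain ⟨t, ht, rfl⟩ := List.mem_map.1 hw
    rw [weights_eq]
    refine ⟨wt_norm _ _, wt_norm _ _, wt_norm _ _, ?_, ?_, ?_, h _ (hB t ht)⟩
    · by_cases h0 : t.1 = 0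
      · left
        show wt θ t.1 = 1
        rw [h0, wt_zero]
      · exact Or.inr (h _ (hA t ht h0))
    · by_cases h0 : t.2.1 = 0
      · left
        show wt θ t.2.1 = 1
        rw [h0, wt_zero]
      · exact Or.inr (h _ (hC t ht h0))
    · rintro ⟨h5, h6⟩
      exact (h1 t ht).2.2.2 ⟨hA1 t ht h5, hC1 t ht h6⟩
  · rintro ⟨-, h5⟩
    obtain ⟨t, ht, h0⟩ := h3
    have h6 := h5 _ (List.mem_map.2 ⟨t, ht, rfl⟩)
    exact hne _ (hC t ht h0) h6
  · rintro ⟨-, h5⟩
    obtain ⟨t, ht, h0⟩ := h2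
    have h6 := h5 _ (List.mem_map.2 ⟨t, ht, rfl⟩)
    exact hne _ (hA t ht h0) h6
  · intro s t P R hrot hP hR
    obtain ⟨n, hn⟩ := hrot
    rw [← List.map_rotate, List.cons_append] at hn
    obtain ⟨s', l, hl, hs, hl'⟩ := List.map_eq_cons_iff.1 hn
    obtain ⟨P', l', rfl, hP', hl''⟩ := List.map_eq_append_iff.1 hl'
    obtain ⟨t', R', rfl, ht, hR'⟩ := List.map_eq_cons_iff.1 hl''
    have hrot' : β ~r s' :: P' ++ t' :: R' := ⟨n, by rw [hl, List.cons_append]⟩
    have hmem : ∀ u ∈ s' :: P' ++ t' :: R', u ∈ β := fun u hu => hrot'.mem_iff.2 hu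
    have hs'β : s' ∈ β := hmem _ (by simp)
    have ht'β : t' ∈ β := hmem _ (by simp)
    have h5 := h4 s' t' P' R' hrot' (fun u hu => by
        apply hC1 u (hmem u (List.mem_append_left _ hu))
        have h6 : weights θ u ∈ s :: P := by
          rw [← hs, ← hP', ← List.map_cons]
          exact List.mem_map_of_mem hu
        exact hP.2 _ h6) (fun u hu => by
        apply hA1 u (hmem u (List.mem_append_right _ hu))
        have h6 : weights θ u ∈ t :: R := by
          rw [← ht, ← hR', ← List.map_cons]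
          exact List.mem_map_of_mem hu
        exact hR.2 _ h6)
    have h6 := h (s'.2.2 + t'.2.2) ⟨h5, Or.inr ⟨s', hs'β, t', ht'β, rfl⟩⟩
    rw [← hs, ← ht]
    show η ≤ ‖wt θ s'.2.2 * wt θ t'.2.2 - 1‖
    rw [wt_add]
    exact h6

/-- conclusion from a good angle -/
theorem conclude (hU : St_U4) (hT : St_Top) (η : ℝ) (hη : 0 < η) (B : ℕ) :
    ∃ t : ℝ, 0 < t ∧ ∀ (M N : ℤ) (β : List (ℤ × ℤ × ℤ)) (θ : ℝ), Long M N β → 0 < θ → θ ≤ t →
      (∀ a, Occurs M β a → η ≤ ‖wt θ a - 1‖) → ∀ o, (closure β).IsOrientation o →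
      (B : ℤ) < SPT.coeffSum ((closure β).normalized o) := by
  obtain ⟨Q₀, hQ₀, hU'⟩ := hU η B hη
  refine ⟨min (1 / 2) (Real.sqrt Q₀ / 2), lt_min (by norm_num) (by positivity), ?_⟩
  intro M N β θ hβ hθ hθt hfar o ho
  have hθ1 : θ < 1 := by
    have h1 := hθt.trans (min_le_left _ _)
    linarith
  have hs0 : 0 < 2 * Real.sin (θ / 2) := by
    have h1 := Real.sin_pos_of_pos_of_lt_pi (x := θ / 2) (by linarith) (by linarith [Real.pi_gt_three])
    linarith
  have hs1 : 2 * Real.sin (θ / 2) ≤ θ := by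
    have h1 := Real.sin_le (x := θ / 2) (by linarith)
    linarith
  have hQ : (2 * Real.sin (θ / 2)) ^ 2 < Q₀ := by
    have h1 : 2 * Real.sin (θ / 2) < Real.sqrt Q₀ := by
      have h2 := hθt.trans (min_le_right _ _)
      have h3 := Real.sqrt_pos.2 hQ₀
      linarith
    have h2 := Real.sq_sqrt hQ₀.le
    nlinarith [Real.sqrt_pos.2 hQ₀]
  have hβ0 : β ≠ [] := by
    obtain ⟨t, ht, _⟩ := hβ.2.1
    exact List.ne_nil_of_mem ht
  have h1 := hU' _ (by positivity) hQ (β.map (weights θ)) (by simpa using hβ0)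
    (far_of η θ hη M N β hβ hfar)
  rw [← hT β θ hθ hθ1 o ho] at h1
  have h2 : ‖valueAt θ ((closure β).normalized o)‖ ≤
      (SPT.coeffSum ((closure β).normalized o) : ℝ) := SPT.norm_ev_le θ _
  have h3 : 2 * Real.sin (θ / 2) * ‖valueAt θ ((closure β).normalized o)‖ ≤
      1 * ‖valueAt θ ((closure β).normalized o)‖ :=
    mul_le_mul_of_nonneg_right (by linarith) (norm_nonneg _)
  have h4 : (B : ℝ) < (SPT.coeffSum ((closure β).normalized o) : ℝ) := by linarith
  exact_mod_cast h4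

/-- the distance of a weight from `1` -/
theorem wt_far (θ η : ℝ) (a : ℤ) (h1 : η ≤ θ * |(a : ℝ)| / 2) (h2 : θ * |(a : ℝ)| / 2 ≤ Real.pi / 2)
    (h0 : 0 ≤ η) (hθ : 0 < θ) : 2 * Real.sin η ≤ ‖wt θ a - 1‖ := by
  unfold wt
  rw [mul_comm (((-θ * a : ℝ) : ℂ)) Complex.I, Complex.norm_exp_I_mul_ofReal_sub_one,
    Real.norm_eq_abs, abs_mul, abs_two]
  have h3 : |Real.sin (-θ * a / 2)| = Real.sin (θ * |(a : ℝ)| / 2) := by
    have h5 : 0 ≤ θ * |(a : ℝ)| / 2 := by positivity
    have h6 : 0 ≤ Real.sin (θ * |(a : ℝ)| / 2) :=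
      Real.sin_nonneg_of_nonneg_of_le_pi h5 (by linarith [Real.pi_pos])
    rcases abs_cases (a : ℝ) with ⟨h, _⟩ | ⟨h, _⟩
    · rw [h] at h6 ⊢
      have h7 : -θ * (a : ℝ) / 2 = -(θ * a / 2) := by ring
      rw [h7, Real.sin_neg, abs_neg, abs_of_nonneg h6]
    · rw [h] at h6 ⊢
      have h7 : -θ * (a : ℝ) / 2 = θ * -a / 2 := by ring
      rw [h7, abs_of_nonneg h6]
  rw [h3]
  have h4 : Real.sin η ≤ Real.sin (θ * |(a : ℝ)| / 2) :=
    Real.sin_le_sin_of_le_of_le_pi_div_two (by linarith [Real.pi_pos]) h2 h1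
  linarith

theorem FourBraids_of (hU : St_U4) (hT : St_Top) : St_FourBraids := by
  classical
  intro B
  constructor
  · intro k
    obtain ⟨η, hη, hTh⟩ := SPT.thm_Theta (3 * k + k * k)
    obtain ⟨t, ht, hc⟩ := conclude hU hT η hη B
    obtain ⟨N, hN⟩ := exists_nat_ge (Real.pi / (t / 2))
    refine ⟨N, fun M β hk hβ o ho => ?_⟩
    obtain ⟨s, hs⟩ : ∃ s : Finset ℤ, s = (((β.map fun t => t.1).toFinset ∪
        (β.map fun t => t.2.1).toFinset ∪ (β.map fun t => t.2.2).toFinset) ∪
        ((β.map fun t => t.2.2).toFinset ×ˢ (β.map fun t => t.2.2).toFinset).image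
          fun p => p.1 + p.2) := ⟨_, rfl⟩
    have hcard : s.card ≤ 3 * k + k * k := by
      have hl : ∀ f : ℤ × ℤ × ℤ → ℤ, (β.map f).toFinset.card ≤ k := fun f =>
        (List.toFinset_card_le _).trans (by rw [List.length_map]; exact hk)
      rw [hs]
      refine (Finset.card_union_le _ _).trans (add_le_add ?_ ?_)
      · refine (Finset.card_union_le _ _).trans ?_
        have h1 := Finset.card_union_le (β.map fun t => t.1).toFinset
          (β.map fun t => t.2.1).toFinset
        have h2 := hl (fun t => t.1)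
        have h3 := hl (fun t => t.2.1)
        have h4 := hl (fun t => t.2.2)
        omega
      · refine Finset.card_image_le.trans ?_
        rw [Finset.card_product]
        exact Nat.mul_le_mul (hl _) (hl _)
    have hmem : ∀ a, Occurs (N : ℤ) β a → a ∈ s := by
      rintro a ⟨-, ⟨t, ht, h⟩ | ⟨s', hs', t, ht, h⟩⟩
      · rw [hs]
        simp only [Finset.mem_union, List.mem_toFinset, List.mem_map]
        rcases h with h | h | h
        · exact Or.inl (Or.inl (Or.inl ⟨t, ht, h.symm⟩))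
        · exact Or.inl (Or.inl (Or.inr ⟨t, ht, h.symm⟩))
        · exact Or.inl (Or.inr ⟨t, ht, h.symm⟩)
      · rw [hs, Finset.mem_union, Finset.mem_image]
        refine Or.inr ⟨(s'.2.2, t.2.2), ?_, h.symm⟩
        rw [Finset.mem_product, List.mem_toFinset, List.mem_toFinset, List.mem_map, List.mem_map]
        exact ⟨⟨s', hs', rfl⟩, ⟨t, ht, rfl⟩⟩
    obtain ⟨θ, hθ1, hθ2, hθ⟩ := hTh ((s.filter fun a => (N : ℤ) ≤ |a|).image fun a => -a)
      (Finset.card_image_le.trans ((Finset.card_le_card (Finset.filter_subset _ _)).trans hcard))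
      (t / 2) (t / 2) (fun a ha => by
        obtain ⟨b, hb, rfl⟩ := Finset.mem_image.1 ha
        rw [Finset.mem_filter] at hb
        have h1 : (N : ℝ) ≤ |((-b : ℤ) : ℝ)| := by
          have h2 := hb.2
          rw [← abs_neg] at h2
          exact_mod_cast h2
        calc Real.pi = t / 2 * (Real.pi / (t / 2)) := by field_simp
          _ ≤ t / 2 * |((-b : ℤ) : ℝ)| :=
              mul_le_mul_of_nonneg_left (hN.trans h1) (by positivity)) (by positivity)
    refine hc N M β θ hβ (by linarith) (by linarith) (fun a ha => ?_) o ho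
    have h1 := hθ (-a) (Finset.mem_image.2 ⟨a, Finset.mem_filter.2 ⟨hmem a ha, ha.1⟩, rfl⟩)
    have h2 : wt θ a = Complex.exp (((((-a : ℤ) : ℝ) * θ : ℝ) : ℂ) * Complex.I) := by
      unfold wt
      congr 2
      push_cast
      ring
    rw [h2]
    exact h1
  · intro C
    rcases Nat.eq_zero_or_pos C with hC | hC
    · refine ⟨1, fun N hN β hβ o ho => ?_⟩
      exfalso
      obtain ⟨t, ht, -⟩ := hβ.2.1
      obtain ⟨⟨h1, h2⟩, -⟩ := hβ.1 t ht
      rw [hC] at h2
      simp only [Nat.cast_zero, zero_mul] at h2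
      omega
    · have hC' : (0 : ℝ) < C := by exact_mod_cast hC
      have hC1 : (1 : ℝ) ≤ C := by exact_mod_cast hC
      have hη : 0 < 2 * Real.sin (Real.pi / (4 * C)) := by
        have h1 := Real.sin_pos_of_pos_of_lt_pi (x := Real.pi / (4 * C)) (by positivity) (by
          rw [div_lt_iff₀ (by positivity)]
          nlinarith [Real.pi_pos])
        linarith
      obtain ⟨t, ht, hc⟩ := conclude hU hT _ hη B
      obtain ⟨N₀, hN₀⟩ := exists_nat_ge (Real.pi / (2 * C) / t)
      refine ⟨N₀ + 1, fun N hN β hβ o ho => ?_⟩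
      have hN0 : (0 : ℝ) < N := by
        have h1 : 0 < N := by omega
        exact_mod_cast h1
      refine hc N ((C : ℤ) * N) β (Real.pi / (2 * C * N)) hβ (by positivity) ?_ ?_ o ho
      · rw [div_le_iff₀ (by positivity)]
        have h1 : (N₀ : ℝ) ≤ N := by
          have h2 : N₀ ≤ N := by omega
          exact_mod_cast h2
        have h2 := hN₀.trans h1
        rw [div_le_iff₀ ht, div_le_iff₀ (by positivity)] at h2
        linarith
      · intro a ha
        have hup : |(a : ℝ)| ≤ 2 * C * N := by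
          have h5 : ∀ b : ℤ, |b| ≤ (C : ℤ) * N → |(b : ℝ)| ≤ C * N := by
            intro b hb
            exact_mod_cast hb
          obtain ⟨-, ⟨t, ht, h⟩ | ⟨s', hs', t, ht, h⟩⟩ := ha
          · have h6 := hβ.1 t ht
            have hpos : (0 : ℝ) ≤ C * N := by positivity
            rcases h with rfl | rfl | rfl
            · rcases h6.2.1 with h7 | h7
              · rw [h7, Int.cast_zero, abs_zero]
                linarith
              · have := h5 _ h7.2
                linarith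
            · rcases h6.2.2.1 with h7 | h7
              · rw [h7, Int.cast_zero, abs_zero]
                linarith
              · have := h5 _ h7.2
                linarith
            · have := h5 _ h6.1.2
              linarith
          · have h6 := h5 _ (hβ.1 _ hs').1.2
            have h7 := h5 _ (hβ.1 _ ht).1.2
            rw [h, Int.cast_add]
            refine (abs_add_le _ _).trans ?_
            linarith
        have hlow : (N : ℝ) ≤ |(a : ℝ)| := by exact_mod_cast ha.1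
        apply wt_far
        · have h8 : Real.pi / (4 * C) = Real.pi / (2 * C * N) * N / 2 := by
            field_simp
            ring
          rw [h8]
          have : Real.pi / (2 * C * N) * N ≤ Real.pi / (2 * C * N) * |(a : ℝ)| :=
            mul_le_mul_of_nonneg_left hlow (by positivity)
          linarith
        · have h8 : Real.pi / (2 * C * N) * |(a : ℝ)| ≤ Real.pi / (2 * C * N) * (2 * C * N) :=
            mul_le_mul_of_nonneg_left hup (by positivity)
          have h9 : Real.pi / (2 * C * N) * (2 * C * N) = Real.pi := by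
            field_simp
          linarith
        · positivity
        · positivity

end Pool.Agent.FB
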