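import Mathlib
import Pool.Agent.FB.Fin
import Pool.Agent.FB.TOP
import Pool.Agent.FB.U4.U4

/-!
# FB: the theorem on closed 4-braids
-/

set_option autoImplicit false

namespace Pool.Agent.FB

/-- **closed 4-braids with long syllables** -/
theorem thm_FourBraids : St_FourBraids := FourBraids_of U4.thm_U4 thm_Top

end Pool.Agent.FB
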