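import Mathlib
import Pool.Agent.FB.Defs

/-!
# FB: closed 4-braids with long syllables, the final statement
-/

set_option autoImplicit false

namespace Pool.Agent.FB

open LaurentPolynomial Pool.RU

/-- the lengths of the syllables -/
def lengths (β : List (ℤ × ℤ × ℤ)) : Finset ℕ :=
  (β.map fun t => t.1.natAbs).toFinset ∪ (β.map fun t => t.2.1.natAbs).toFinset ∪
    (β.map fun t => t.2.2.natAbs).toFinset

/-- `β = σ₂^b₁ σ₁^a₁ σ₃^c₁ ⋯ σ₂^b_m σ₁^a_m σ₃^c_m` with `|b_i| ≥ N`, and `|a_i|`, `|c_i|` at least `N` or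
zero, not both zero; `σ₁` and `σ₃` occur; and if the closed word is `X Y` with `X` a word in `σ₁, σ₂` and
`Y` a word in `σ₂, σ₃`, then the exponents of the first syllables `σ₂^b` of `X` and `σ₂^b'` of `Y` satisfy
`N ≤ |b + b'|`. -/
def LongWord (N : ℤ) (β : List (ℤ × ℤ × ℤ)) : Prop :=
  (∀ t ∈ β, N ≤ |t.2.2| ∧ (t.1 = 0 ∨ N ≤ |t.1|) ∧ (t.2.1 = 0 ∨ N ≤ |t.2.1|) ∧
    ¬ (t.1 = 0 ∧ t.2.1 = 0)) ∧
  (∃ t ∈ β, t.1 ≠ 0) ∧ (∃ t ∈ β, t.2.1 ≠ 0) ∧
  ∀ s t P R, β ~r s :: P ++ t :: R → (∀ u ∈ s :: P, u.2.1 = 0) → (∀ u ∈ t :: R, u.1 = 0) →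
    N ≤ |s.2.2 + t.2.2|

/-- **closed 4-braids**: all syllables have length at least `N ≥ N₀ (B, k, C)`, and all but at most `k`
different lengths are at most `C * N`; the number of the syllables is arbitrary -/
def St_FourBraids2 : Prop :=
  ∀ B k C : ℕ, ∃ N₀ : ℕ, ∀ N : ℕ, N₀ ≤ N → ∀ β : List (ℤ × ℤ × ℤ), LongWord N β →
    ((lengths β).filter fun l => C * N < l).card ≤ k →
    ∀ o, (closure β).IsOrientation o → (B : ℤ) < SPT.coeffSum ((closure β).normalized o)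

end Pool.Agent.FB
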