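import Mathlib
import Pool.Agent.FB.Defs2
import Pool.Agent.FB.Fin
import Pool.Agent.FB.TOP
import Pool.Agent.FB.U4.U4

/-!
# FB: the final statement, assembly
-/

set_option autoImplicit false

namespace Pool.Agent.FB

open LaurentPolynomial Pool.RU

/-! ### the turns -/

/-- the exponent of `σ₂` at a change of kind -/
def del (u v : ℤ × ℤ × ℤ) : ℤ := if (u.2.1 = 0 ↔ v.2.1 = 0) then 0 else v.2.2

/-- the sum of `del` over the consecutive pairs -/
def chain : List (ℤ × ℤ × ℤ) → ℤ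
  | [] => 0
  | [_] => 0
  | u :: v :: l => del u v + chain (v :: l)

theorem chain_append (l : List (ℤ × ℤ × ℤ)) (x y : ℤ × ℤ × ℤ) :
    chain (l ++ [x, y]) = chain (l ++ [x]) + del x y := by
  induction l with
  | nil => simp [chain]
  | cons u l ih =>
    cases l with
    | nil => simp [chain]
    | cons v l =>
      have h1 : chain (u :: v :: l ++ [x, y]) = del u v + chain (v :: l ++ [x, y]) := rfl
      have h2 : chain (u :: v :: l ++ [x]) = del u v + chain (v :: l ++ [x]) := rfl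
      rw [h1, h2, ih]
      ring

/-- the cyclic sum -/
def turn : List (ℤ × ℤ × ℤ) → ℤ
  | [] => 0
  | u :: l => chain (u :: l ++ [u])

theorem turn_rotate (u : ℤ × ℤ × ℤ) (l : List (ℤ × ℤ × ℤ)) : turn (l ++ [u]) = turn (u :: l) := by
  cases l with
  | nil => rfl
  | cons v l =>
    have h1 : turn (v :: l ++ [u]) = chain ((v :: l) ++ [u, v]) := by
      show chain (v :: (l ++ [u]) ++ [v]) = _
      congr 1
      simp
    have h2 : turn (u :: v :: l) = del u v + chain (v :: l ++ [u]) := rfl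
    rw [h1, h2, chain_append]
    ring

theorem turn_rot1 (l : List (ℤ × ℤ × ℤ)) : turn (l.rotate 1) = turn l := by
  cases l with
  | nil => rfl
  | cons u l =>
    rw [List.rotate_cons_succ, List.rotate_zero]
    exact turn_rotate u l

theorem turn_rot (l l' : List (ℤ × ℤ × ℤ)) (h : l ~r l') : turn l = turn l' := by
  obtain ⟨n, rfl⟩ := h
  induction n with
  | zero => rw [List.rotate_zero]
  | succ n ih => rw [ih, ← List.rotate_rotate, turn_rot1]

theorem chain_run (p : Prop) (l : List (ℤ × ℤ × ℤ)) (a x : ℤ × ℤ × ℤ) (l' : List (ℤ × ℤ × ℤ))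
    (ha : a.2.1 = 0 ↔ p) (hl : ∀ u ∈ l, (u.2.1 = 0 ↔ p)) (hx : ¬ (x.2.1 = 0 ↔ p)) :
    chain (a :: l ++ x :: l') = x.2.2 + chain (x :: l') := by
  induction l generalizing a with
  | nil =>
    show del a x + chain (x :: l') = _
    unfold del
    rw [if_neg (by tauto)]
  | cons b l ih =>
    have h1 : chain (a :: b :: l ++ x :: l') = del a b + chain (b :: l ++ x :: l') := rfl
    have hb := hl b (List.mem_cons_self ..)
    rw [h1, ih b hb fun u hu => hl u (List.mem_cons_of_mem _ hu)]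
    unfold del
    rw [if_pos (by tauto), zero_add]

theorem turn_eq (s t : ℤ × ℤ × ℤ) (P R : List (ℤ × ℤ × ℤ)) (h1 : ∀ u ∈ s :: P, u.2.1 = 0)
    (h2 : ∀ u ∈ t :: R, u.2.1 ≠ 0) : turn (s :: P ++ t :: R) = s.2.2 + t.2.2 := by
  have h3 : turn (s :: P ++ t :: R) = chain (s :: P ++ t :: (R ++ [s])) := by
    show chain (s :: (P ++ t :: R) ++ [s]) = _
    congr 1
    simp
  have hs := h1 s (List.mem_cons_self ..)
  have ht := h2 t (List.mem_cons_self ..)
  rw [h3, chain_run True P s t (R ++ [s]) (by tauto)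
    (fun u hu => by have := h1 u (List.mem_cons_of_mem _ hu); tauto) (by tauto)]
  have h4 : chain (t :: (R ++ [s])) = chain (t :: R ++ s :: []) := rfl
  rw [h4, chain_run False R t s [] (by tauto)
    (fun u hu => by have := h2 u (List.mem_cons_of_mem _ hu); tauto) (by tauto)]
  show t.2.2 + (s.2.2 + 0) = _
  ring

/-! ### the far list -/

/-- the lengths which occur -/
def Occ (M : ℤ) (β : List (ℤ × ℤ × ℤ)) (a : ℤ) : Prop :=
  M ≤ |a| ∧ ((∃ t ∈ β, a = t.1 ∨ a = t.2.1 ∨ a = t.2.2) ∨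
    (a = turn β ∧ ∃ s ∈ β, ∃ t ∈ β, a = s.2.2 + t.2.2))

theorem far_of2 (η θ : ℝ) (hη : 0 < η) (M : ℤ) (β : List (ℤ × ℤ × ℤ)) (hβ : LongWord M β)
    (h : ∀ a, Occ M β a → η ≤ ‖wt θ a - 1‖) : FarList η (β.map (weights θ)) := by
  obtain ⟨h1, h2, h3, h4⟩ := hβ
  have hne : ∀ a, Occ M β a → wt θ a ≠ 1 := by
    intro a ha h0
    have h5 := h a ha
    rw [h0, sub_self, norm_zero] at h5
    linarith
  have hA : ∀ t ∈ β, t.1 ≠ 0 → Occ M β t.1 := fun t ht h0 =>
    ⟨(h1 t ht).2.1.resolve_left h0, Or.inl ⟨t, ht, Or.inl rfl⟩⟩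
  have hC : ∀ t ∈ β, t.2.1 ≠ 0 → Occ M β t.2.1 := fun t ht h0 =>
    ⟨(h1 t ht).2.2.1.resolve_left h0, Or.inl ⟨t, ht, Or.inr (Or.inl rfl)⟩⟩
  have hB : ∀ t ∈ β, Occ M β t.2.2 := fun t ht =>
    ⟨(h1 t ht).1, Or.inl ⟨t, ht, Or.inr (Or.inr rfl)⟩⟩
  have hA1 : ∀ t ∈ β, wt θ t.1 = 1 → t.1 = 0 := by
    intro t ht h0
    by_contra h5
    exact hne _ (hA t ht h5) h0
  have hC1 : ∀ t ∈ β, wt θ t.2.1 = 1 → t.2.1 = 0 := by
    intro t ht h0
    by_contra h5
    exact hne _ (hC t ht h5) h0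
  refine ⟨?_, ?_, ?_, ?_⟩
  · intro w hw
    obtain ⟨t, ht, rfl⟩ := List.mem_map.1 hw
    rw [weights_eq]
    refine ⟨wt_norm _ _, wt_norm _ _, wt_norm _ _, ?_, ?_, ?_, h _ (hB t ht)⟩
    · by_cases h0 : t.1 = 0
      · left
        show wt θ t.1 = 1
        rw [h0, wt_zero]
      · exact Or.inr (h _ (hA t ht h0))
    · by_cases h0 : t.2.1 = 0
      · left
        show wt θ t.2.1 = 1
        rw [h0, wt_zero]
      · exact Or.inr (h _ (hC t ht h0))
    · rintro ⟨h5, h6⟩
      exact (h1 t ht).2.2.2 ⟨hA1 t ht h5, hC1 t ht h6⟩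
  · rintro ⟨-, h5⟩
    obtain ⟨t, ht, h0⟩ := h3
    have h6 := h5 _ (List.mem_map.2 ⟨t, ht, rfl⟩)
    exact hne _ (hC t ht h0) h6
  · rintro ⟨-, h5⟩
    obtain ⟨t, ht, h0⟩ := h2
    have h6 := h5 _ (List.mem_map.2 ⟨t, ht, rfl⟩)
    exact hne _ (hA t ht h0) h6
  · intro s t P R hrot hP hR
    obtain ⟨n, hn⟩ := hrot
    rw [← List.map_rotate, List.cons_append] at hn
    obtain ⟨s', l, hl, hs, hl'⟩ := List.map_eq_cons_iff.1 hn
    obtain ⟨P', l', rfl, hP', hl''⟩ := List.map_eq_append_iff.1 hl'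
    obtain ⟨t', R', rfl, ht, hR'⟩ := List.map_eq_cons_iff.1 hl''
    have hrot' : β ~r s' :: P' ++ t' :: R' := ⟨n, by rw [hl, List.cons_append]⟩
    have hmem : ∀ u ∈ s' :: P' ++ t' :: R', u ∈ β := fun u hu => hrot'.mem_iff.2 hu
    have hs'β : s' ∈ β := hmem _ (by simp)
    have ht'β : t' ∈ β := hmem _ (by simp)
    have hP1 : ∀ u ∈ s' :: P', u.2.1 = 0 := fun u hu => by
      apply hC1 u (hmem u (List.mem_append_left _ hu))
      have h6 : weights θ u ∈ s :: P := by
        rw [← hs, ← hP', ← List.map_cons]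
        exact List.mem_map_of_mem hu
      exact hP.2 _ h6
    have hR1 : ∀ u ∈ t' :: R', u.1 = 0 := fun u hu => by
      apply hA1 u (hmem u (List.mem_append_right _ hu))
      have h6 : weights θ u ∈ t :: R := by
        rw [← ht, ← hR', ← List.map_cons]
        exact List.mem_map_of_mem hu
      exact hR.2 _ h6
    have h5 := h4 s' t' P' R' hrot' hP1 hR1
    have hturn : turn β = s'.2.2 + t'.2.2 := by
      rw [turn_rot _ _ hrot', turn_eq s' t' P' R' hP1]
      intro u hu h0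
      exact (h1 u (hmem u (List.mem_append_right _ hu))).2.2.2 ⟨hR1 u hu, h0⟩
    have h6 := h (s'.2.2 + t'.2.2) ⟨h5, Or.inr ⟨hturn.symm, s', hs'β, t', ht'β, rfl⟩⟩
    rw [← hs, ← ht]
    show η ≤ ‖wt θ s'.2.2 * wt θ t'.2.2 - 1‖
    rw [wt_add]
    exact h6

/-- conclusion from a good angle -/
theorem conclude2 (hU : St_U4) (hT : St_Top) (η : ℝ) (hη : 0 < η) (B : ℕ) :
    ∃ t : ℝ, 0 < t ∧ ∀ (M : ℤ) (β : List (ℤ × ℤ × ℤ)) (θ : ℝ), LongWord M β → 0 < θ → θ ≤ t →
      (∀ a, Occ M β a → η ≤ ‖wt θ a - 1‖) → ∀ o, (closure β).IsOrientation o →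
      (B : ℤ) < SPT.coeffSum ((closure β).normalized o) := by
  obtain ⟨Q₀, hQ₀, hU'⟩ := hU η B hη
  refine ⟨min (1 / 2) (Real.sqrt Q₀ / 2), lt_min (by norm_num) (by positivity), ?_⟩
  intro M β θ hβ hθ hθt hfar o ho
  have hθ1 : θ < 1 := by
    have h1 := hθt.trans (min_le_left _ _)
    linarith
  have hs0 : 0 < 2 * Real.sin (θ / 2) := by
    have h1 := Real.sin_pos_of_pos_of_lt_pi (x := θ / 2) (by linarith) (by linarith [Real.pi_gt_three])
    linarith
  have hs1 : 2 * Real.sin (θ / 2) ≤ θ := by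
    have h1 := Real.sin_le (x := θ / 2) (by linarith)
    linarith
  have hQ : (2 * Real.sin (θ / 2)) ^ 2 < Q₀ := by
    have h1 : 2 * Real.sin (θ / 2) < Real.sqrt Q₀ := by
      have h2 := hθt.trans (min_le_right _ _)
      have h3 := Real.sqrt_pos.2 hQ₀
      linarith
    have h2 := Real.sq_sqrt hQ₀.le
    nlinarith [Real.sqrt_pos.2 hQ₀]
  have hβ0 : β ≠ [] := by
    obtain ⟨t, ht, _⟩ := hβ.2.1
    exact List.ne_nil_of_mem ht
  have h1 := hU' _ (by positivity) hQ (β.map (weights θ)) (by simpa using hβ0)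
    (far_of2 η θ hη M β hβ hfar)
  rw [← hT β θ hθ hθ1 o ho] at h1
  have h2 : ‖valueAt θ ((closure β).normalized o)‖ ≤
      (SPT.coeffSum ((closure β).normalized o) : ℝ) := SPT.norm_ev_le θ _
  have h3 : 2 * Real.sin (θ / 2) * ‖valueAt θ ((closure β).normalized o)‖ ≤
      1 * ‖valueAt θ ((closure β).normalized o)‖ :=
    mul_le_mul_of_nonneg_right (by linarith) (norm_nonneg _)
  have h4 : (B : ℝ) < (SPT.coeffSum ((closure β).normalized o) : ℝ) := by linarith
  exact_mod_cast h4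

theorem mem_lengths (β : List (ℤ × ℤ × ℤ)) (a : ℤ)
    (h : ∃ t ∈ β, a = t.1 ∨ a = t.2.1 ∨ a = t.2.2) : a.natAbs ∈ lengths β := by
  obtain ⟨t, ht, h⟩ := h
  unfold lengths
  simp only [Finset.mem_union, List.mem_toFinset, List.mem_map]
  rcases h with rfl | rfl | rfl
  · exact Or.inl (Or.inl ⟨t, ht, rfl⟩)
  · exact Or.inl (Or.inr ⟨t, ht, rfl⟩)
  · exact Or.inr ⟨t, ht, rfl⟩

theorem FourBraids2_of (hU : St_U4) (hT : St_Top) : St_FourBraids2 := by
  classical
  intro B k C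
  -- the constant for the short lengths
  obtain ⟨D, hD⟩ : ∃ D : ℕ, D = 2 * C + 1 := ⟨_, rfl⟩
  have hD1 : (1 : ℝ) ≤ D := by
    rw [hD]
    push_cast
    have : (0 : ℝ) ≤ C := Nat.cast_nonneg C
    linarith
  obtain ⟨η₁, hη₁, hTh⟩ := SPT.thm_ThetaGen (2 * k + 1) (Real.pi / 2) (by positivity)
    (by linarith [Real.pi_pos])
  have hη₂ : 0 < 2 * Real.sin (Real.pi / (4 * D)) := by
    have h1 := Real.sin_pos_of_pos_of_lt_pi (x := Real.pi / (4 * D)) (by positivity) (by
      rw [div_lt_iff₀ (by positivity)]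
      nlinarith [Real.pi_pos])
    linarith
  obtain ⟨η, hηp, hη1, hη2⟩ : ∃ η : ℝ, 0 < η ∧ η ≤ η₁ ∧ η ≤ 2 * Real.sin (Real.pi / (4 * D)) :=
    ⟨min η₁ (2 * Real.sin (Real.pi / (4 * D))), lt_min hη₁ hη₂, min_le_left _ _, min_le_right _ _⟩
  obtain ⟨t, ht, hc⟩ := conclude2 hU hT η hηp B
  obtain ⟨N₀, hN₀⟩ := exists_nat_ge (Real.pi / D / t)
  refine ⟨N₀ + 1, fun N hN β hβ hk o ho => ?_⟩
  have hN0 : (0 : ℝ) < N := by
    have h1 : 0 < N := by omega
    exact_mod_cast h1
  obtain ⟨t₀, ht₀⟩ : ∃ t₀ : ℝ, t₀ = Real.pi / (2 * D * N) := ⟨_, rfl⟩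
  have ht₀p : 0 < t₀ := by
    rw [ht₀]
    positivity
  have ht₀t : 2 * t₀ ≤ t := by
    have h1 : (N₀ : ℝ) ≤ N := by
      have h2 : N₀ ≤ N := by omega
      exact_mod_cast h2
    have h2 := hN₀.trans h1
    rw [div_le_iff₀ ht, div_le_iff₀ (by positivity)] at h2
    have h3 : 2 * t₀ = Real.pi / (D * N) := by
      rw [ht₀]
      field_simp
    rw [h3, div_le_iff₀ (by positivity)]
    linarith
  -- the long lengths
  obtain ⟨s, hs⟩ : ∃ s : Finset ℤ, s = ((((lengths β).filter fun l => C * N < l).image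
      fun l : ℕ => (l : ℤ)) ∪ (((lengths β).filter fun l => C * N < l).image fun l : ℕ => -(l : ℤ))) ∪
      {-turn β} := ⟨_, rfl⟩
  have hscard : s.card ≤ 2 * k + 1 := by
    rw [hs]
    refine (Finset.card_union_le _ _).trans ?_
    rw [Finset.card_singleton]
    have h1 := Finset.card_union_le (((lengths β).filter fun l => C * N < l).image
      fun l : ℕ => (l : ℤ)) (((lengths β).filter fun l => C * N < l).image fun l : ℕ => -(l : ℤ))
    have h2 : (((lengths β).filter fun l => C * N < l).image fun l : ℕ => (l : ℤ)).card ≤ k :=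
      Finset.card_image_le.trans hk
    have h3 : (((lengths β).filter fun l => C * N < l).image fun l : ℕ => -(l : ℤ)).card ≤ k :=
      Finset.card_image_le.trans hk
    omega
  obtain ⟨θ, hθ1, hθ2, hθ⟩ := hTh (s.filter fun a => ((D * N : ℕ) : ℤ) ≤ |a|)
    ((Finset.card_le_card (Finset.filter_subset _ _)).trans hscard) t₀ t₀ (fun a ha => by
      rw [Finset.mem_filter] at ha
      have h1 : ((D : ℝ) * N) ≤ |(a : ℝ)| := by exact_mod_cast ha.2
      calc Real.pi / 2 = t₀ * (D * N) := by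
            rw [ht₀]
            field_simp
        _ ≤ t₀ * |(a : ℝ)| := mul_le_mul_of_nonneg_left h1 ht₀p.le) ht₀p
  have hθ0 : 0 < θ := by linarith
  refine hc N β θ hβ hθ0 (by linarith) (fun a ha => ?_) o ho
  have hlow : (N : ℝ) ≤ |(a : ℝ)| := by exact_mod_cast ha.1
  by_cases hbig : ((D * N : ℕ) : ℤ) ≤ |a|
  · -- long
    have hmem : -a ∈ s := by
      rw [hs]
      have hCN : ((C * N : ℕ) : ℤ) < ((D * N : ℕ) : ℤ) := by
        have h1 : C * N < D * N := by
          apply Nat.mul_lt_mul_of_pos_right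
          · omega
          · have : 0 < N := by omega
            exact this
        exact_mod_cast h1
      rcases ha.2 with h | ⟨h, -⟩
      · have h1 := mem_lengths β a h
        have h2 : C * N < a.natAbs := by
          have h3 : ((C * N : ℕ) : ℤ) < |a| := lt_of_lt_of_le hCN hbig
          rw [Int.abs_eq_natAbs] at h3
          exact_mod_cast h3
        apply Finset.mem_union_left
        rw [Finset.mem_union, Finset.mem_image, Finset.mem_image]
        rcases le_total 0 a with h3 | h3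
        · right
          exact ⟨a.natAbs, Finset.mem_filter.2 ⟨h1, h2⟩, by rw [Int.natAbs_of_nonneg h3]⟩
        · left
          exact ⟨a.natAbs, Finset.mem_filter.2 ⟨h1, h2⟩, by rw [Int.ofNat_natAbs_of_nonpos h3]⟩
      · apply Finset.mem_union_right
        rw [Finset.mem_singleton, h]
    have h1 := hθ (-a) (Finset.mem_filter.2 ⟨hmem, by rwa [abs_neg]⟩)
    have h2 : wt θ a = Complex.exp (((((-a : ℤ) : ℝ) * θ : ℝ) : ℂ) * Complex.I) := by
      unfold wt
      congr 2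
      push_cast
      ring
    rw [h2]
    exact hη1.trans h1
  · -- short
    push Not at hbig
    have hup : |(a : ℝ)| ≤ D * N := by
      have h1 : |(a : ℝ)| < ((D * N : ℕ) : ℝ) := by exact_mod_cast hbig
      push_cast at h1
      exact h1.le
    refine hη2.trans ?_
    apply wt_far
    · have h8 : Real.pi / (4 * D) = t₀ * N / 2 := by
        rw [ht₀]
        field_simp
        ring
      rw [h8]
      have h9 : t₀ * N ≤ θ * |(a : ℝ)| :=
        mul_le_mul hθ1 hlow hN0.le hθ0.le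
      linarith
    · have h9 : θ * |(a : ℝ)| ≤ (2 * t₀) * (D * N) :=
        mul_le_mul (by linarith) hup (abs_nonneg _) (by linarith)
      have h10 : (2 * t₀) * (D * N) = Real.pi := by
        rw [ht₀]
        field_simp
      linarith
    · positivity
    · exact hθ0

/-- **closed 4-braids with long syllables** -/
theorem thm_FourBraids2 : St_FourBraids2 := FourBraids2_of U4.thm_U4 thm_Top

end Pool.Agent.FB
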