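import Pool.Agent.FB.Defs

/-!
# FB/U4: statements of the analytic modules

A block is `t = (x, y, z)` (weights of `σ₁^a`, `σ₃^c`, `σ₂^b`).  State `p = (α, β)`: the function on the
colours with value `1 + α` at the hub 0, `1 + β` at the hub 4, `1` elsewhere.
-/

set_option autoImplicit false

open Matrix

namespace Pool.Agent.FB.U4

/-- `v = Q / (z - 1)` -/
noncomputable def v (Q : ℝ) (t : ℂ × ℂ × ℂ) : ℂ := Q / (t.2.2 - 1)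

/-- `X = x (1 + α) - 1` -/
noncomputable def X (t : ℂ × ℂ × ℂ) (p : ℂ × ℂ) : ℂ := t.1 * (1 + p.1) - 1

/-- `Y = y (1 + β) - 1` -/
noncomputable def Y (t : ℂ × ℂ × ℂ) (p : ℂ × ℂ) : ℂ := t.2.1 * (1 + p.2) - 1

/-- `N = v + Q + X + Y` -/
noncomputable def N (Q : ℝ) (t : ℂ × ℂ × ℂ) (p : ℂ × ℂ) : ℂ := v Q t + Q + X t p + Y t p

/-- the new state -/
noncomputable def step (Q : ℝ) (t : ℂ × ℂ × ℂ) (p : ℂ × ℂ) : ℂ × ℂ :=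
  (v Q t * X t p / N Q t p, v Q t * Y t p / N Q t p)

/-- the comparison matrix of one block (hubs equal against hubs different) -/
noncomputable def K (Q : ℝ) (t : ℂ × ℂ × ℂ) (p : ℂ × ℂ) : Matrix (Fin 2) (Fin 2) ℂ :=
  !![1 + X t p * Y t p / N Q t p, t.1 * t.2.1 / N Q t p;
    v Q t / N Q t p ^ 2 * (X t p * Y t p * (Q - v Q t * (X t p * Y t p) / N Q t p)),
    v Q t / N Q t p ^ 2 * (t.1 * t.2.1 * (v Q t + Q - v Q t * (X t p * Y t p) / N Q t p))]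

/-- the state after a list of blocks (the last block acts first) -/
noncomputable def orb (Q : ℝ) (L : List (ℂ × ℂ × ℂ)) (p : ℂ × ℂ) : ℂ × ℂ := L.foldr (step Q) p

/-- the growth factor -/
noncomputable def lam (Q : ℝ) : List (ℂ × ℂ × ℂ) → ℂ × ℂ → ℂ
  | [], _ => 1
  | t :: L, p => N Q t (orb Q L p) / v Q t * lam Q L p

/-- the comparison matrix of a list of blocks -/
noncomputable def KK (Q : ℝ) : List (ℂ × ℂ × ℂ) → ℂ × ℂ → Matrix (Fin 2) (Fin 2) ℂ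
  | [], _ => 1
  | t :: L, p => K Q t (orb Q L p) * KK Q L p

/-- an admissible block -/
def Adm (η : ℝ) (t : ℂ × ℂ × ℂ) : Prop :=
  ‖t.1‖ = 1 ∧ ‖t.2.1‖ = 1 ∧ ‖t.2.2‖ = 1 ∧ (t.1 = 1 ∨ η ≤ ‖t.1 - 1‖) ∧
    (t.2.1 = 1 ∨ η ≤ ‖t.2.1 - 1‖) ∧ ¬ (t.1 = 1 ∧ t.2.1 = 1) ∧ η ≤ ‖t.2.2 - 1‖

/-- the state is near `0` -/
def Near (κ Q : ℝ) (p : ℂ × ℂ) : Prop := ‖p.1‖ ≤ κ * Q ∧ ‖p.2‖ ≤ κ * Q

/-- **All local estimates**: the states in the ball of radius `κ Q`, all other constants `C`. -/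
structure Good (η κ C Q : ℝ) : Prop where
  pos : 0 < Q
  κ_pos : 0 < κ
  one_le : 1 ≤ C
  κ_le : κ ≤ C
  v_ne : ∀ t, Adm η t → v Q t ≠ 0
  v_le : ∀ t, Adm η t → ‖v Q t‖ ≤ C * Q
  /-- `|1 + v| ≤ 1 - Q/2 + C Q²` -/
  v_wall : ∀ t, Adm η t → ‖1 + v Q t‖ ≤ 1 - Q / 2 + C * Q ^ 2
  N_ge : ∀ t p, Adm η t → Near κ Q p → C⁻¹ ≤ ‖N Q t p‖
  lam_ge : ∀ t p, Adm η t → Near κ Q p → (C * Q)⁻¹ ≤ ‖N Q t p / v Q t‖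
  near : ∀ t p, Adm η t → Near κ Q p → Near κ Q (step Q t p)
  lip : ∀ t p q, Adm η t → Near κ Q p → Near κ Q q → dist (step Q t p) (step Q t q) ≤ dist p q / 2
  /-- blocks without `σ₃` -/
  stepA : ∀ t p, Adm η t → Near κ Q p → t.2.1 = 1 →
    ‖(step Q t p).1 - v Q t‖ ≤ C * Q ^ 2 ∧ ‖(step Q t p).2‖ ≤ C * Q * ‖p.2‖
  KA : ∀ t p, Adm η t → Near κ Q p → t.2.1 = 1 →
    ‖K Q t p 0 0 - (1 + p.2)‖ ≤ C * Q * ‖p.2‖ ∧ ‖K Q t p 1 0‖ ≤ C * Q ^ 2 * ‖p.2‖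
  /-- blocks without `σ₁` -/
  stepB : ∀ t p, Adm η t → Near κ Q p → t.1 = 1 →
    ‖(step Q t p).2 - v Q t‖ ≤ C * Q ^ 2 ∧ ‖(step Q t p).1‖ ≤ C * Q * ‖p.1‖
  KB : ∀ t p, Adm η t → Near κ Q p → t.1 = 1 →
    ‖K Q t p 0 0 - (1 + p.1)‖ ≤ C * Q * ‖p.1‖ ∧ ‖K Q t p 1 0‖ ≤ C * Q ^ 2 * ‖p.1‖
  /-- all blocks -/
  K01 : ∀ t p, Adm η t → Near κ Q p → ‖K Q t p 0 1‖ ≤ C
  K10 : ∀ t p, Adm η t → Near κ Q p → ‖K Q t p 1 0‖ ≤ C * Q ^ 2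
  K11 : ∀ t p, Adm η t → Near κ Q p → ‖K Q t p 1 1‖ ≤ C * Q ^ 2
  /-- double blocks -/
  KD : ∀ t p, Adm η t → Near κ Q p → t.1 ≠ 1 → t.2.1 ≠ 1 → ‖K Q t p 0 0‖ ≤ 1 - C⁻¹

/-- **Module U4_LOC**: the local estimates hold for small `Q`. -/
def St_Loc : Prop := ∀ η : ℝ, 0 < η → η ≤ 1 → ∃ κ C Q₀ : ℝ, 0 < Q₀ ∧
  ∀ Q : ℝ, 0 < Q → Q < Q₀ → Good η κ C Q

/-- **Module U4_ALG**: one block, hubs different and equal. -/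
def St_Alg : Prop := ∀ (Q : ℝ) (t : ℂ × ℂ × ℂ) (p : ℂ × ℂ), Q ≠ 0 → t.2.2 ≠ 1 → N Q t p ≠ 0 →
  T3 Q t *ᵥ ![1 + p.1, 1 + p.2, 1] =
    (N Q t p / v Q t) • ![1 + (step Q t p).1, 1 + (step Q t p).2, 1] ∧
  T2 Q t * !![(1 + p.1) * (1 + p.2), 1; 1, 0] =
    (N Q t p / v Q t) • (!![(1 + (step Q t p).1) * (1 + (step Q t p).2), 1; 1, 0] * K Q t p)

/-- **Module U4_PROD**: the products at a fixed point of the orbit map. -/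
def St_Prod : Prop := ∀ (η κ C Q : ℝ), Good η κ C Q → ∀ L : List (ℂ × ℂ × ℂ), L ≠ [] → (∀ t ∈ L, Adm η t) →
  ∃ p, Near κ Q p ∧ orb Q L p = p ∧
    (L.map (T3 Q)).prod *ᵥ ![1 + p.1, 1 + p.2, 1] = lam Q L p • ![1 + p.1, 1 + p.2, 1] ∧
    (L.map (T2 Q)).prod.trace = lam Q L p * (KK Q L p).trace

/-- **Module U4_HERM**: the matrices `T3` preserve the form `diag (1, 1, Q - 2)`; so the trace of a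
product with a large eigenvalue is near this eigenvalue. -/
def St_Herm : Prop := ∀ (Q : ℝ) (L : List (ℂ × ℂ × ℂ)) (l : ℂ) (w : Fin 3 → ℂ), 0 < Q → Q < 1 →
  (∀ t ∈ L, ‖t.1‖ = 1 ∧ ‖t.2.1‖ = 1 ∧ ‖t.2.2‖ = 1) → w ≠ 0 →
  (L.map (T3 Q)).prod *ᵥ w = l • w → 4 ≤ ‖l‖ → ‖(L.map (T3 Q)).prod.trace - l‖ ≤ 3

/-- the weighted norm -/
noncomputable def nu (W : ℝ) (u : Fin 2 → ℂ) : ℝ := ‖u 0‖ + W * ‖u 1‖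

/-- **Module U4_LIST**: arbitrary lists, and lists beginning with a double block. -/
def St_List : Prop := ∀ η κ C : ℝ, 0 < η → ∃ C' Q₁ : ℝ, 0 < Q₁ ∧ 1 ≤ C' ∧
  ∀ Q : ℝ, Q < Q₁ → Good η κ C Q →
  ∀ (L : List (ℂ × ℂ × ℂ)) (p : ℂ × ℂ), (∀ t ∈ L, Adm η t) → Near κ Q p →
    (∀ u, nu (4 * C) (KK Q L p *ᵥ u) ≤ (1 + C' * Q) * nu (4 * C) u) ∧
    (∀ t L', L = t :: L' → t.1 ≠ 1 → t.2.1 ≠ 1 → ‖(KK Q L p).trace‖ ≤ 1 - C'⁻¹)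

/-- **Module U4_RUN**: a run of blocks without `σ₃` (first part) or without `σ₁` (second part). -/
def St_Run : Prop := ∀ η κ C : ℝ, 0 < η → ∃ C' Q₁ : ℝ, 0 < Q₁ ∧ 1 ≤ C' ∧
  ∀ Q : ℝ, Q < Q₁ → Good η κ C Q →
  ∀ (s : ℂ × ℂ × ℂ) (P : List (ℂ × ℂ × ℂ)) (p : ℂ × ℂ), (∀ t ∈ s :: P, Adm η t) → Near κ Q p →
    ((∀ t ∈ s :: P, t.2.1 = 1) →
      ‖KK Q (s :: P) p 0 0 - (1 + p.2)‖ ≤ C' * Q ^ 2 ∧ ‖KK Q (s :: P) p 0 1‖ ≤ C' ∧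
      ‖KK Q (s :: P) p 1 0‖ ≤ C' * Q ^ 2 ∧ ‖KK Q (s :: P) p 1 1‖ ≤ C' * Q ^ 2 ∧
      ‖(orb Q (s :: P) p).1 - v Q s‖ ≤ C' * Q ^ 2) ∧
    ((∀ t ∈ s :: P, t.1 = 1) →
      ‖KK Q (s :: P) p 0 0 - (1 + p.1)‖ ≤ C' * Q ^ 2 ∧ ‖KK Q (s :: P) p 0 1‖ ≤ C' ∧
      ‖KK Q (s :: P) p 1 0‖ ≤ C' * Q ^ 2 ∧ ‖KK Q (s :: P) p 1 1‖ ≤ C' * Q ^ 2 ∧
      ‖(orb Q (s :: P) p).2 - v Q s‖ ≤ C' * Q ^ 2)

/-- a pair of runs: first without `σ₃`, then without `σ₁` -/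
def Runs (q : List (ℂ × ℂ × ℂ) × List (ℂ × ℂ × ℂ)) : Prop :=
  q.1 ≠ [] ∧ q.2 ≠ [] ∧ (∀ t ∈ q.1, t.2.1 = 1) ∧ ∀ t ∈ q.2, t.1 = 1

/-- **Module U4_ALT**: alternating runs at a fixed point of the orbit map: at least two pairs of runs;
one pair of runs. -/
def St_Alt : Prop := ∀ η κ C : ℝ, 0 < η → ∃ C' Q₁ : ℝ, 0 < Q₁ ∧ 1 ≤ C' ∧
  ∀ Q : ℝ, Q < Q₁ → Good η κ C Q →
  (∀ (R : List (List (ℂ × ℂ × ℂ) × List (ℂ × ℂ × ℂ))) (p : ℂ × ℂ), 2 ≤ R.length →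
    (∀ q ∈ R, Runs q) → (∀ q ∈ R, ∀ t ∈ q.1 ++ q.2, Adm η t) → Near κ Q p →
    orb Q (R.map fun q => q.1 ++ q.2).flatten p = p →
    ‖(KK Q (R.map fun q => q.1 ++ q.2).flatten p).trace‖ ≤ 1 - 3 / 2 * Q) ∧
  (∀ (s t : ℂ × ℂ × ℂ) (P R : List (ℂ × ℂ × ℂ)) (p : ℂ × ℂ), Runs (s :: P, t :: R) →
    (∀ u ∈ s :: P ++ t :: R, Adm η u) → Near κ Q p → orb Q (s :: P ++ t :: R) p = p →
    η ≤ ‖s.2.2 * t.2.2 - 1‖ → C'⁻¹ * Q ≤ ‖(1 - Q : ℂ) - (KK Q (s :: P ++ t :: R) p).trace‖)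

/-- **Module U4_COMB**: a cyclic list without double blocks which has blocks of both kinds is a cyclic
concatenation of pairs of runs. -/
def St_Comb : Prop := ∀ L : List (ℂ × ℂ × ℂ), (∀ t ∈ L, t.1 = 1 ∨ t.2.1 = 1) →
  (∃ t ∈ L, t.1 ≠ 1) → (∃ t ∈ L, t.2.1 ≠ 1) →
  ∃ R : List (List (ℂ × ℂ × ℂ) × List (ℂ × ℂ × ℂ)), R ≠ [] ∧ (∀ q ∈ R, Runs q) ∧
    L ~r (R.map fun q => q.1 ++ q.2).flatten

end Pool.Agent.FB.U4
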